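import Mathlib
import Pool.Agent.H2xSX.Cond2

/-!
H2xSR (helper2, MP_0430e4_lc): conditioning on `a` included and `b` excluded words, when
`K ^ (a + b)` is bounded.
-/

set_option autoImplicit false
set_option linter.unusedSectionVars false

namespace Pool.Agent.H2xSR

open Finset Pool.Agent.Y570 Pool.Agent.Y570.LS Pool.Agent.H2xSX

section

variable {X : Type} [Fintype X] [DecidableEq X] {g : X → X → ℝ} {K Λ σ ρ : ℝ}
variable {t : ℕ}

lemma pr_sub3 (hk : KK g K Λ σ) (hs : ∀ x y, g x y = g y x) {Z J : Finset X} {t : ℕ}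
    (hd : Disjoint Z J) (ht : (Z ∪ J).card ≤ t) : pr g (Z ∪ J) ≤ (K ^ t) ^ J.card * pr g Z := by
  have hK := hk.K1
  have hK0 : 0 ≤ K := by linarith
  rw [pr_union hs hk.nonneg hd]
  have h1 : pr g J * gg g Z J ≤ (K ^ t) ^ J.card := by
    calc pr g J * gg g Z J ≤ K ^ (J.card * J.card) * K ^ (Z.card * J.card) :=
          mul_le_mul (pr_le hk J) (gg_le hk Z J) (gg_nonneg hk.nonneg _ _) (by positivity)
      _ = K ^ (J.card * J.card + Z.card * J.card) := by rw [pow_add]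
      _ ≤ K ^ (t * J.card) := by
          refine pow_le_pow_right₀ hK ?_
          rw [Finset.card_union_of_disjoint hd] at ht
          calc J.card * J.card + Z.card * J.card = (Z.card + J.card) * J.card := by ring
            _ ≤ t * J.card := Nat.mul_le_mul ht le_rfl
      _ = (K ^ t) ^ J.card := by rw [pow_mul]
  calc pr g Z * pr g J * gg g Z J = (pr g J * gg g Z J) * pr g Z := by ring
    _ ≤ (K ^ t) ^ J.card * pr g Z := mul_le_mul_of_nonneg_right h1 (pr_nonneg g Z)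

/-- the conditions on the parameters -/
structure Sml3 (K Λ σ ρ η m : ℝ) (s b t : ℕ) : Prop where
  hΛσ : Λ ≤ σ ^ 2
  hρ : 0 < ρ
  hm : 1 ≤ m
  hη : ∀ u w : ℕ, 1 ≤ u → u ≤ t → 1 ≤ w → w ≤ t → Nuw2 K Λ σ t u w * √ρ ^ (u + w) ≤ η
  hη0 : 0 ≤ η
  hη1 : η * t * (2 ^ t * (K ^ (t ^ 2) * (K ^ s) ^ t)) ≤ 1 / 2
  hτ : (K ^ s * σ) ^ 2 * ρ ≤ m
  hs : b * (3 * (K ^ s * ρ)) ≤ 1 / 2
  hF : 3 * ((K ^ s) ^ t * (t + 1) * (m ^ t * (2 ^ t *
    (K ^ (t ^ 2) * (K ^ s) ^ t)))) * ((2 * t) ^ (2 * t) * (2 * (b * (3 * (K ^ s * ρ))))) ≤ 1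

/-- the form of a link -/
lemma link_main3 {η m : ℝ} {s b : ℕ} (hk : KK g K Λ σ) (hsym : ∀ x y, g x y = g y x)
    (hg0 : ∀ x, g x x = 0) (hS : Sml3 K Λ σ ρ η m s b t) {A : Finset X} (hA : A.card ≤ s)
    (f : Finset X → ℝ) (hf : ∀ S, t < S.card → f S = 0) :
    |∑ S, ∑ T, f S * f T * yp ρ g (gs g A) (S ∪ T) - MM (yp ρ g (gs g A)) f| ≤
      1 / 2 * MM (yp ρ g (gs g A)) f := by
  have hK := hk.K1
  have hK0 : 0 ≤ K := by linarith
  have hY := yp_pm hk hsym hS.hρ.le t (gs g A) (K ^ s) (one_le_pow₀ hK) (gs_nonneg hk A)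
    (gs_le hk hA)
  refine (psd_main2 hk hY hg0 hS.hΛσ hS.hρ (by positivity) η hS.hη hS.hη0 f hf).trans ?_
  exact mul_le_mul_of_nonneg_right hS.hη1 (MM_nonneg hY f)

lemma gs_row3 (hk : KK g K Λ σ) (hs : ∀ x y, g x y = g y x) {S : Finset X} {s : ℕ}
    (hS : S.card ≤ s) : ∑ x, (gs g S x - 1) ^ 2 ≤ (K ^ s * S.card * σ) ^ 2 := by
  have hK0 : 0 ≤ K := by linarith [hk.K1]
  have h1 : ∀ x, gs g S x = pg g x S := by
    intro x
    unfold gs pg
    exact Finset.prod_congr rfl fun z _ => hs z x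
  simp_rw [h1]
  refine (pg_col hk S).trans ?_
  have := hk.hσ
  refine pow_le_pow_left₀ (by positivity) ?_ 2
  refine mul_le_mul_of_nonneg_right ?_ this
  exact mul_le_mul_of_nonneg_right (pow_le_pow_right₀ hk.K1 hS) (Nat.cast_nonneg _)

/-- **The conditioned moment matrices of the product ansatz are positive semidefinite.** -/
theorem psd_cond3 {η m : ℝ} {s b : ℕ} (hk : KK g K Λ σ) (hsym : ∀ x y, g x y = g y x)
    (hg0 : ∀ x, g x x = 0) (hS : Sml3 K Λ σ ρ η m s b t) (D E : Finset X)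
    (hDE : D.card + E.card ≤ s) (hE : E.card ≤ b) (f : Finset X → ℝ) (hf : ∀ S, t < S.card → f S = 0) :
    0 ≤ ∑ S, ∑ T, f S * f T * KP.cond (yy ρ g) D E (S ∪ T) := by
  have hK := hk.K1
  have hK0 : 0 ≤ K := by linarith
  have hn := hk.nonneg
  have hm0 : 0 ≤ m := by linarith [hS.hm]
  by_cases hDEd : Disjoint D E
  swap
  · obtain ⟨x, hx1, hx2⟩ := Finset.not_disjoint_iff.1 hDEd
    refine le_of_eq ?_
    symm
    refine Finset.sum_eq_zero fun S _ => Finset.sum_eq_zero fun T _ => ?_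
    rw [KP.cond_zero (yy ρ g) hx2 (Finset.mem_union_left _ hx1), mul_zero]
  rw [cond_reduce]
  obtain ⟨φ, hφ⟩ : ∃ φ : Finset X → ℝ, φ = rd f D E := ⟨_, rfl⟩
  rw [← hφ]
  have hφc : ∀ S, t < S.card → φ S = 0 := by
    rw [hφ]
    exact rd_card hf D E
  have hφd : ∀ S, ¬ (Disjoint D S ∧ Disjoint E S) → φ S = 0 := by
    rw [hφ]
    exact rd_disj f D E
  obtain ⟨Q, hQ⟩ : ∃ Q : Finset X → ℝ, Q = fun F => ∑ S, ∑ T, φ S * φ T *
      yp ρ g (gs g (D ∪ F)) (S ∪ T) := ⟨_, rfl⟩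
  have h1 : ∑ S, ∑ T, φ S * φ T * KP.cond (yy ρ g) D E (S ∪ T) =
      ∑ F ∈ E.powerset, (-1) ^ F.card * (yy ρ g (D ∪ F) * Q F) := by
    have e1 : ∀ S T : Finset X, φ S * φ T * KP.cond (yy ρ g) D E (S ∪ T) =
        ∑ F ∈ E.powerset, (-1) ^ F.card * (yy ρ g (D ∪ F) * (φ S * φ T *
          yp ρ g (gs g (D ∪ F)) (S ∪ T))) := by
      intro S T
      by_cases h2 : Disjoint D S ∧ Disjoint E S
      · by_cases h3 : Disjoint D T ∧ Disjoint E T
        · unfold KP.cond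
          rw [Finset.mul_sum]
          refine Finset.sum_congr rfl fun F hF => ?_
          have hF' := Finset.mem_powerset.1 hF
          have hd : Disjoint (D ∪ F) (S ∪ T) := by
            rw [Finset.disjoint_union_left, Finset.disjoint_union_right,
              Finset.disjoint_union_right]
            exact ⟨⟨h2.1, h3.1⟩, Finset.disjoint_of_subset_left hF' h2.2,
              Finset.disjoint_of_subset_left hF' h3.2⟩
          rw [yy_link hsym hn hd]
          ring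
        · rw [hφd T h3]
          simp
      · rw [hφd S h2]
        simp
    rw [Finset.sum_congr rfl fun S _ => Finset.sum_congr rfl fun T _ => e1 S T]
    rw [Finset.sum_congr rfl fun S _ => Finset.sum_comm, Finset.sum_comm]
    refine Finset.sum_congr rfl fun F _ => ?_
    rw [hQ, Finset.mul_sum, Finset.mul_sum]
    refine Finset.sum_congr rfl fun S _ => ?_
    rw [Finset.mul_sum, Finset.mul_sum]
  rw [h1]
  have hDc : D.card ≤ s := by omega
  have hcard : ∀ F ∈ E.powerset, (D ∪ F).card ≤ s := by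
    intro F hF
    have h2 := Finset.card_le_card (Finset.mem_powerset.1 hF)
    have h3 := Finset.card_union_le D F
    omega
  obtain ⟨M, hM⟩ : ∃ M : ℝ, M = MM (yp ρ g (gs g D)) φ := ⟨_, rfl⟩
  have hYD := yp_pm hk hsym hS.hρ.le t (gs g D) (K ^ s) (one_le_pow₀ hK) (gs_nonneg hk D)
    (gs_le hk hDc)
  have hM0 : 0 ≤ M := by
    rw [hM]
    exact MM_nonneg hYD φ
  obtain ⟨C, hC⟩ : ∃ C : ℝ, C = (K ^ s) ^ t * (t + 1) * (m ^ t * (2 ^ t *
      (K ^ (t ^ 2) * (K ^ s) ^ t))) := ⟨_, rfl⟩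
  have hC0 : 0 ≤ C := by
    rw [hC]
    positivity
  have h2 : ∀ F ∈ E.powerset.erase ∅, |Q F| ≤ 3 / 2 * (C * (F.card : ℝ) ^ (2 * t) * M) := by
    intro F hF0
    have hF := Finset.mem_of_mem_erase hF0
    have hF2 : F ≠ ∅ := Finset.ne_of_mem_erase hF0
    have hFs : F.card ≤ s := by
      have := Finset.card_le_card (Finset.mem_powerset.1 hF)
      omega
    have hF1 : (1 : ℝ) ≤ F.card := by
      exact_mod_cast Finset.card_pos.2 (Finset.nonempty_iff_ne_empty.2 hF2)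
    have e1 := link_main3 hk hsym hg0 hS (hcard F hF) φ hφc
    have e2 : MM (yp ρ g (gs g (D ∪ F))) φ ≤ C * (F.card : ℝ) ^ (2 * t) * M := by
      have hd : Disjoint D F := Finset.disjoint_of_subset_right (Finset.mem_powerset.1 hF) hDEd
      have e3 : yp ρ g (gs g (D ∪ F)) = fun S => yp ρ g (gs g D) S * pq (gs g F) S := by
        funext S
        unfold yp pq
        have : ∀ x, gs g (D ∪ F) x = gs g D x * gs g F x := by
          intro x
          unfold gs
          rw [Finset.prod_union hd]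
        simp_rw [this]
        rw [Finset.prod_mul_distrib]
        ring
      rw [e3, hM]
      have e4 := MM_weight hYD hS.hρ (by positivity) (gs g F) (gs_nonneg hk F) (K ^ s)
        (K ^ s * F.card * σ) ((F.card : ℝ) ^ 2 * m) (one_le_pow₀ hK) (gs_le hk hFs)
        (one_le_mul_of_one_le_of_one_le (one_le_pow₀ hF1) hS.hm) (by
          have := mul_le_mul_of_nonneg_left hS.hτ (by positivity : (0 : ℝ) ≤ (F.card : ℝ) ^ 2)
          refine le_trans (le_of_eq ?_) this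
          ring) (gs_row3 hk hsym hFs) φ hφc
      refine e4.trans (le_of_eq ?_)
      rw [hC, mul_pow, ← pow_mul]
      ring
    have e4 := MM_nonneg (yp_pm hk hsym hS.hρ.le t (gs g (D ∪ F)) (K ^ s) (one_le_pow₀ hK)
      (gs_nonneg hk (D ∪ F)) (gs_le hk (hcard F hF))) φ
    have e5 : ∑ S, ∑ T, φ S * φ T * yp ρ g (gs g (D ∪ F)) (S ∪ T) = Q F := by rw [hQ]
    rw [e5, abs_le] at e1
    rw [abs_le]
    constructor <;> linarith [e1.1, e1.2]
  have h3 : 1 / 2 * M ≤ Q ∅ := by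
    have e1 := link_main3 hk hsym hg0 hS hDc φ hφc
    have e2 : Q ∅ = ∑ S, ∑ T, φ S * φ T * yp ρ g (gs g D) (S ∪ T) := by
      rw [hQ]
      simp only [Finset.union_empty]
    rw [e2]
    rw [← hM] at e1
    linarith [(abs_le.1 e1).1]
  have hyD := yy_nonneg hS.hρ.le g D
  have h4 : ∀ F ∈ E.powerset.erase ∅, |(-1) ^ F.card * (yy ρ g (D ∪ F) * Q F)| ≤
      yy ρ g D * M * (3 / 2 * C) * ((K ^ s * ρ) ^ F.card * (F.card : ℝ) ^ (2 * t)) := by
    intro F hF
    have hF1 := Finset.mem_of_mem_erase hF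
    have hd : Disjoint D F := Finset.disjoint_of_subset_right (Finset.mem_powerset.1 hF1) hDEd
    have e1 : yy ρ g (D ∪ F) ≤ yy ρ g D * (K ^ s * ρ) ^ F.card := by
      unfold yy
      have e2 := pr_sub3 hk hsym hd (hcard F hF1)
      rw [Finset.card_union_of_disjoint hd, pow_add]
      have e4 : 0 ≤ ρ ^ D.card := pow_nonneg hS.hρ.le _
      have e6 : 0 ≤ ρ ^ F.card := pow_nonneg hS.hρ.le _
      calc ρ ^ D.card * ρ ^ F.card * pr g (D ∪ F)
          ≤ ρ ^ D.card * ρ ^ F.card * ((K ^ s) ^ F.card * pr g D) :=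
            mul_le_mul_of_nonneg_left e2 (mul_nonneg e4 e6)
        _ = _ := by
            rw [mul_pow]
            ring
    rw [abs_mul, abs_pow, abs_neg, abs_one, one_pow, one_mul, abs_mul,
      abs_of_nonneg (yy_nonneg hS.hρ.le g _)]
    have e6 := hS.hρ.le
    calc yy ρ g (D ∪ F) * |Q F| ≤ yy ρ g D * (K ^ s * ρ) ^ F.card *
          (3 / 2 * (C * (F.card : ℝ) ^ (2 * t) * M)) :=
          mul_le_mul e1 (h2 F hF) (abs_nonneg _) (by
            have := pow_nonneg hK0 s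
            positivity)
      _ = _ := by ring
  have h5 : ∑ F ∈ E.powerset, (-1) ^ F.card * (yy ρ g (D ∪ F) * Q F) =
      yy ρ g D * Q ∅ + ∑ F ∈ E.powerset.erase ∅, (-1) ^ F.card * (yy ρ g (D ∪ F) * Q F) := by
    rw [← Finset.add_sum_erase _ _ (Finset.empty_mem_powerset E)]
    simp
  have h6 : |∑ F ∈ E.powerset.erase ∅, (-1) ^ F.card * (yy ρ g (D ∪ F) * Q F)| ≤
      yy ρ g D * (1 / 2 * M) := by
    refine (Finset.abs_sum_le_sum_abs _ _).trans ((Finset.sum_le_sum h4).trans ?_)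
    rw [← Finset.mul_sum]
    have e1 := sum_subsets E t b hE (mul_nonneg (pow_nonneg hK0 s) hS.hρ.le) hS.hs
    have e3 := hS.hF
    rw [← hC] at e3
    have e7 : 0 ≤ yy ρ g D * M := mul_nonneg hyD hM0
    calc yy ρ g D * M * (3 / 2 * C) *
        ∑ F ∈ E.powerset.erase ∅, (K ^ s * ρ) ^ F.card * (F.card : ℝ) ^ (2 * t)
        ≤ yy ρ g D * M * (3 / 2 * C) *
          ((2 * t) ^ (2 * t) * (2 * (b * (3 * (K ^ s * ρ))))) :=
          mul_le_mul_of_nonneg_left e1 (by positivity)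
      _ = 1 / 2 * (yy ρ g D * M) * (3 * C *
          ((2 * t) ^ (2 * t) * (2 * (b * (3 * (K ^ s * ρ)))))) := by ring
      _ ≤ 1 / 2 * (yy ρ g D * M) * 1 := mul_le_mul_of_nonneg_left e3 (by positivity)
      _ = yy ρ g D * (1 / 2 * M) := by ring
  rw [h5]
  have h7 := mul_le_mul_of_nonneg_left h3 hyD
  linarith [(abs_le.1 h6).1]

end

end Pool.Agent.H2xSR
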