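import Mathlib
import Pool.Agent.H2xSR.Cond3

/-!
H2xSR (helper2, MP_0430e4_lc): the parameters.
-/

set_option autoImplicit false
set_option linter.unusedSectionVars false

namespace Pool.Agent.H2xSR

open Finset Pool.Agent.Y570 Pool.Agent.Y570.LS Pool.Agent.H2xSX

/-- the parameters -/
lemma sml3_of {K κ V E Λ : ℝ} {s b t r : ℕ} (hK : 1 ≤ K) (hKr : K ^ r ≤ 2) (hsr : s ≤ r)
    (htr : t ≤ r) (ht : 1 ≤ t) (hV : 0 < V) (hE : 1 ≤ E) (hκ : 1 ≤ κ) (hΛ0 : 0 ≤ Λ)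
    (hΛ : Λ ≤ κ * V) (hs : b * (3 * (2 * (E / V))) ≤ 1 / 2)
    (hA : ((2 * t + 1) ^ t * (t : ℝ) ^ t * (κ ^ t * (Λ / V * E ^ t))) * t * (2 ^ t * 4 ^ t) ≤
      1 / 2)
    (hB : 3 * (2 ^ t * (t + 1) * ((4 * κ * E) ^ t * (2 ^ t * 4 ^ t))) *
      ((2 * t) ^ (2 * t) * (2 * (b * (3 * (2 * (E / V)))))) ≤ 1) :
    Sml3 K Λ √(κ * V) (E / V) ((2 * t + 1) ^ t * (t : ℝ) ^ t * (κ ^ t * (Λ / V * E ^ t)))
      (4 * κ * E) s b t := by
  have hK0 : 0 < K := by linarith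
  have hκV : 0 ≤ κ * V := by positivity
  have hEp : 0 < E := by linarith
  have hκp : 0 < κ := by linarith
  have k4 : K ^ t ≤ 2 := (pow_le_pow_right₀ hK htr).trans hKr
  have k5 : K ^ s ≤ 2 := (pow_le_pow_right₀ hK hsr).trans hKr
  have k2 : K ^ (t ^ 2) ≤ 2 ^ t := by
    rw [sq, pow_mul]
    exact pow_le_pow_left₀ (by positivity) k4 t
  have k3 : (K ^ s) ^ t ≤ 2 ^ t := pow_le_pow_left₀ (by positivity) k5 t
  have b1 : K ^ (t ^ 2) * (K ^ s) ^ t ≤ 4 ^ t := by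
    calc K ^ (t ^ 2) * (K ^ s) ^ t ≤ 2 ^ t * 2 ^ t := mul_le_mul k2 k3 (by positivity) (by positivity)
      _ = 4 ^ t := by
          rw [← mul_pow]
          norm_num
  have hEV : K ^ s * (E / V) ≤ 2 * (E / V) := mul_le_mul_of_nonneg_right k5 (by positivity)
  have ht1 : (1 : ℝ) ≤ t := by exact_mod_cast ht
  have h2t : (1 : ℝ) ≤ 2 * t + 1 := by linarith
  refine ⟨?_, by positivity, ?_, ?_, by positivity, ?_, ?_, ?_, ?_⟩
  · rw [Real.sq_sqrt hκV]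
    exact hΛ
  · nlinarith
  · intro u w hu hut hw hwt
    unfold Nuw2
    rw [if_neg (by omega)]
    obtain ⟨k, hk⟩ : ∃ k : ℕ, k = (u - 1) + (w - 1) := ⟨_, rfl⟩
    have hk2 : u + w = k + 2 := by omega
    have hk3 : k ≤ 2 * (t - 1) := by omega
    rw [← hk, hk2, pow_add, Real.sq_sqrt (by positivity)]
    have e1 : √(κ * V) ^ k * √(E / V) ^ k = √(κ * E) ^ k := by
      rw [← mul_pow, ← Real.sqrt_mul hκV]
      congr 2
      field_simp
    have h1 : 1 ≤ √(κ * E) := by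
      rw [Real.one_le_sqrt]
      exact one_le_mul_of_one_le_of_one_le hκ hE
    have e2 : √(κ * E) ^ k ≤ (κ * E) ^ (t - 1) := by
      calc √(κ * E) ^ k ≤ √(κ * E) ^ (2 * (t - 1)) := pow_le_pow_right₀ h1 hk3
        _ = (κ * E) ^ (t - 1) := by rw [pow_mul, Real.sq_sqrt (by positivity)]
    have e3 : (K ^ t * t + 1) ^ u ≤ (2 * (t : ℝ) + 1) ^ t := by
      have : K ^ t * t + 1 ≤ 2 * (t : ℝ) + 1 := by
        have := mul_le_mul_of_nonneg_right k4 (by linarith : (0 : ℝ) ≤ t)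
        linarith
      exact (pow_le_pow_left₀ (by positivity) this u).trans (pow_le_pow_right₀ h2t hut)
    have e3' : (u : ℝ) ^ w ≤ (t : ℝ) ^ t := by
      have : (u : ℝ) ≤ t := by exact_mod_cast hut
      exact (pow_le_pow_left₀ (by positivity) this w).trans (pow_le_pow_right₀ ht1 hwt)
    have e4 : κ ^ (t - 1) ≤ κ ^ t := pow_le_pow_right₀ hκ (by omega)
    have e5 : E ^ t = E ^ (t - 1) * E := by
      rw [← pow_succ]
      congr 1
      omega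
    calc (K ^ t * t + 1) ^ u * (u : ℝ) ^ w * Λ * √(κ * V) ^ k * (√(E / V) ^ k * (E / V))
        = (K ^ t * t + 1) ^ u * (u : ℝ) ^ w * (Λ * (E / V)) * (√(κ * V) ^ k * √(E / V) ^ k) := by
          ring
      _ ≤ (2 * (t : ℝ) + 1) ^ t * (t : ℝ) ^ t * (Λ * (E / V)) * (κ * E) ^ (t - 1) := by
          rw [e1]
          gcongr
      _ = (2 * (t : ℝ) + 1) ^ t * (t : ℝ) ^ t * (κ ^ (t - 1) * (Λ / V * E ^ t)) := by
          rw [mul_pow, e5]
          ring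
      _ ≤ (2 * (t : ℝ) + 1) ^ t * (t : ℝ) ^ t * (κ ^ t * (Λ / V * E ^ t)) := by
          gcongr
  · refine le_trans ?_ hA
    refine mul_le_mul_of_nonneg_left ?_ (by positivity)
    exact mul_le_mul_of_nonneg_left b1 (by positivity)
  · have e1 : (K ^ s * √(κ * V)) ^ 2 * (E / V) = (K ^ s) ^ 2 * (κ * E) := by
      rw [mul_pow, Real.sq_sqrt hκV]
      field_simp
    rw [e1]
    have e2 : (K ^ s) ^ 2 ≤ 2 ^ 2 := pow_le_pow_left₀ (by positivity) k5 2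
    have e3 : 0 ≤ κ * E := by positivity
    nlinarith
  · refine le_trans ?_ hs
    gcongr
  · refine le_trans ?_ hB
    gcongr

end Pool.Agent.H2xSR
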