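import Mathlib
import Pool.Agent.Y570.LS.Ent
import Pool.Agent.Y570.LS.Solve

/-!
H2xSR (helper2, MP_0430e4_lc): bounds for the Krawtchouk polynomials.
-/

set_option autoImplicit false
set_option linter.unusedSectionVars false

namespace Pool.Agent.H2xSR

open Finset Polynomial Pool.Agent.Y570 Pool.Agent.Y570.LS Pool.Agent.TH41.BL

/-- the coefficients of `P` are dominated by those of `Q` -/
def Dom (P Q : ℝ[X]) : Prop := ∀ w, |P.coeff w| ≤ Q.coeff w

lemma Dom.mul {P Q P' Q' : ℝ[X]} (h : Dom P Q) (h' : Dom P' Q') : Dom (P * P') (Q * Q') := by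
  intro w
  rw [Polynomial.coeff_mul, Polynomial.coeff_mul]
  refine (Finset.abs_sum_le_sum_abs _ _).trans (Finset.sum_le_sum fun x _ => ?_)
  rw [abs_mul]
  exact mul_le_mul (h _) (h' _) (abs_nonneg _) ((abs_nonneg _).trans (h _))

lemma Dom.one : Dom (1 : ℝ[X]) 1 := by
  intro w
  rw [Polynomial.coeff_one]
  split_ifs <;> simp

lemma Dom.pow {P Q : ℝ[X]} (h : Dom P Q) (k : ℕ) : Dom (P ^ k) (Q ^ k) := by
  induction k with
  | zero => simpa using Dom.one
  | succ k ih =>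
    rw [pow_succ, pow_succ]
    exact ih.mul h

lemma dom_lin (a b : ℝ) (ha : 0 ≤ a) (hb : 0 ≤ b) (k : ℕ) (hk : 1 ≤ k) (e : ℝ) (he : |e| = 1) :
    Dom (C a + C (e * b) * X ^ k) (C a + C b * X ^ k) := by
  intro w
  rw [Polynomial.coeff_add, Polynomial.coeff_add, Polynomial.coeff_C, Polynomial.coeff_C_mul,
    Polynomial.coeff_C_mul, Polynomial.coeff_X_pow]
  by_cases h0 : w = 0
  · subst h0
    rw [if_pos rfl, if_neg (by omega)]
    simp [abs_of_nonneg ha]
  · rw [if_neg h0]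
    by_cases h1 : w = k
    · rw [if_pos h1, zero_add, zero_add, mul_one, mul_one, abs_mul, he, one_mul, abs_of_nonneg hb]
    · rw [if_neg h1]
      simp

lemma sum_coeff_le (Q : ℝ[X]) (hQ : ∀ w, 0 ≤ Q.coeff w) (d : ℕ) :
    ∑ w ∈ range d, Q.coeff w ≤ Q.eval 1 := by
  have h1 := Polynomial.eval_eq_sum_range' (p := Q) (n := max (Q.natDegree + 1) d)
    (lt_of_lt_of_le (Nat.lt_succ_self _) (le_max_left _ _)) 1
  rw [h1]
  simp only [one_pow, mul_one]
  exact Finset.sum_le_sum_of_subset_of_nonneg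
    (Finset.range_mono (le_max_right _ _)) fun w _ _ => hQ w

lemma dom_G (n m j : ℕ) (hj1 : m ≤ j) (hj2 : j + m ≤ n) (a b : ℝ) (ha : 0 ≤ a) (hb : 0 ≤ b) :
    Dom (KRAf.G n j a b) ((C (a ^ 2) + C (b ^ 2) * X ^ 2) ^ m * (C a + C b * X) ^ (n - 2 * m)) := by
  have h1 : KRAf.G n j a b = (C (a ^ 2) + C (-1 * b ^ 2) * X ^ 2) ^ m *
      ((C a + C (1 * b) * X ^ 1) ^ (n - j - m) * (C a + C (-1 * b) * X ^ 1) ^ (j - m)) := by
    unfold KRAf.G
    have e1 : (C (a ^ 2) + C (-1 * b ^ 2) * X ^ 2 : ℝ[X]) = (C a + C b * X) * (C a - C b * X) := by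
      simp only [C_mul, C_pow, C_neg, C_1]
      ring
    have e2 : n - j = m + (n - j - m) := by omega
    have e3 : j = m + (j - m) := by omega
    have e4 : (C a + C b * X : ℝ[X]) ^ (n - j) = (C a + C b * X) ^ m *
        (C a + C b * X) ^ (n - j - m) := by
      rw [← pow_add, ← e2]
    have e5 : (C a - C b * X : ℝ[X]) ^ j = (C a - C b * X) ^ m * (C a - C b * X) ^ (j - m) := by
      rw [← pow_add, ← e3]
    rw [e4, e5, e1, mul_pow, one_mul, pow_one]
    have e6 : (C a + C (-1 * b) * X : ℝ[X]) = C a - C b * X := by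
      simp only [C_mul, C_neg, C_1]
      ring
    rw [e6]
    ring
  have h2 : (C a + C b * X : ℝ[X]) ^ (n - 2 * m) =
      (C a + C b * X ^ 1) ^ (n - j - m) * (C a + C b * X ^ 1) ^ (j - m) := by
    rw [← pow_add, pow_one]
    congr 1
    omega
  rw [h1, h2]
  refine Dom.mul ((dom_lin _ _ (by positivity) (by positivity) 2 (by norm_num) (-1) (by simp)).pow m)
    (Dom.mul ((dom_lin _ _ ha hb 1 le_rfl 1 (by simp)).pow _)
      ((dom_lin _ _ ha hb 1 le_rfl (-1) (by simp)).pow _))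

/-- the sum of the Krawtchouk polynomials, with weights -/
lemma kr_sum_le (n m j d : ℕ) (hj1 : m ≤ j) (hj2 : j + m ≤ n) (a b : ℝ) (ha : 0 ≤ a)
    (hb : 0 ≤ b) (hab : a + b = 1) :
    ∑ w ∈ range d, |(kr n w j : ℝ)| * (a ^ (n - w) * b ^ w) ≤ (1 - 2 * (a * b)) ^ m := by
  have hD := dom_G n m j hj1 hj2 a b ha hb
  have h1 : ∀ w, |(kr n w j : ℝ)| * (a ^ (n - w) * b ^ w) = |(KRAf.G n j a b).coeff w| := by
    intro w
    rw [KRAf.coeff_G n j w (by omega) a b, abs_mul, abs_of_nonneg (a := a ^ (n - w) * b ^ w)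
      (by positivity)]
  simp_rw [h1]
  refine (Finset.sum_le_sum fun w _ => hD w).trans ?_
  refine (sum_coeff_le _ (fun w => (abs_nonneg _).trans (hD w)) d).trans (le_of_eq ?_)
  simp only [eval_mul, eval_pow, eval_add, eval_C, eval_X, one_pow, mul_one]
  rw [hab, one_pow, mul_one]
  congr 1
  have : a ^ 2 + b ^ 2 = (a + b) ^ 2 - 2 * (a * b) := by ring
  rw [this, hab]
  ring

/-- the transform of a ball, at the frequencies between `m` and `n - m` -/
lemma mid_le {p : ℝ} (hp0 : 0 < p) (hp1 : p ≤ 1 / 2) (n m j d : ℕ) (hj1 : m ≤ j)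
    (hj2 : j + m ≤ n) (hd : d ≤ n + 1) (h : ∀ w < d, (w : ℝ) ≤ n * p) :
    ∑ w ∈ range d, |(kr n w j : ℝ)| ≤
      Real.exp (n * Real.binEntropy p) * (1 - 2 * (p * (1 - p))) ^ m := by
  have hq : 0 < 1 - p := by linarith
  have h1 := kr_sum_le n m j d hj1 hj2 (1 - p) p hq.le hp0.le (by ring)
  rw [mul_comm (1 - p) p] at h1
  refine le_trans ?_ (mul_le_mul_of_nonneg_left h1 (Real.exp_pos _).le)
  rw [Finset.mul_sum]
  refine Finset.sum_le_sum fun w hw => ?_
  have hw' := Finset.mem_range.1 hw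
  have h2 : 1 ≤ Real.exp (n * Real.binEntropy p) * ((1 - p) ^ (n - w) * p ^ w) := by
    rw [mul_comm ((1 - p) ^ (n - w)), ent_term hp0 (by linarith) n w (by omega), ← Real.exp_add,
      ent_eq]
    refine Real.one_le_exp ?_
    have h3 := h w hw'
    have h4 : Real.log p ≤ Real.log (1 - p) := Real.log_le_log hp0 (by linarith)
    nlinarith
  calc |(kr n w j : ℝ)| = |(kr n w j : ℝ)| * 1 := (mul_one _).symm
    _ ≤ |(kr n w j : ℝ)| * (Real.exp (n * Real.binEntropy p) * ((1 - p) ^ (n - w) * p ^ w)) :=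
        mul_le_mul_of_nonneg_left h2 (abs_nonneg _)
    _ = _ := by ring

/-- the trivial bound -/
lemma kr_abs_le (n w j : ℕ) (hj : j ≤ n) : |(kr n w j : ℝ)| ≤ n.choose w := by
  have hD := dom_G n 0 j (Nat.zero_le _) (by omega) 1 1 zero_le_one zero_le_one w
  rw [KRAf.coeff_G n j w hj 1 1] at hD
  simp only [one_pow, mul_one, pow_zero, one_mul, C_1, mul_zero, Nat.sub_zero] at hD
  refine hD.trans (le_of_eq ?_)
  rw [add_comm, Polynomial.coeff_X_add_one_pow]

end Pool.Agent.H2xSR
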