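import Mathlib
import Pool.Agent.H2xSR.Kraw
import Pool.Agent.H2xSX.Param2

/-!
H2xSR (helper2, MP_0430e4_lc): a kernel on the cube which is very close to one outside the ball.
-/

set_option autoImplicit false
set_option linter.unusedSectionVars false

namespace Pool.Agent.H2xSR

open Finset Pool.Agent.Y570 Pool.Agent.Y570.LS Pool.Agent.TH41.BL

/-- the transform of the ball -/
noncomputable def be (n d j : ℕ) : ℝ := ∑ w ∈ range d, (kr n w j : ℝ)

/-- the low and the high frequencies -/
def lo (n m : ℕ) : Finset ℕ := (range (n + 1)).filter fun j => j < m ∨ n < j + m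

/-- the projection of the ball to the low and the high frequencies -/
noncomputable def pp (n d m w : ℕ) : ℝ :=
  (2 ^ n)⁻¹ * ∑ j ∈ lo n m, be n d j * (kr n j w : ℝ)

/-- the radial function -/
noncomputable def ee (n d m w : ℕ) : ℝ := if w < d then -1 else pp n d m w

lemma be_le (n d j : ℕ) (hj : j ≤ n) : |be n d j| ≤ vol n d := by
  unfold be vol
  exact (Finset.abs_sum_le_sum_abs _ _).trans (Finset.sum_le_sum fun w _ => kr_abs_le n w j hj)

lemma lo_sum (n m : ℕ) (hm : 2 * m ≤ n) : ∑ j ∈ lo n m, (n.choose j : ℝ) ≤ 2 * vol n m := by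
  have h1 : lo n m ⊆ range m ∪ (range m).image (fun i => n - i) := by
    intro j hj
    unfold lo at hj
    rw [Finset.mem_filter, Finset.mem_range] at hj
    rw [Finset.mem_union, Finset.mem_range, Finset.mem_image]
    rcases hj.2 with h | h
    · exact Or.inl h
    · refine Or.inr ⟨n - j, Finset.mem_range.2 (by omega), by omega⟩
  refine (Finset.sum_le_sum_of_subset_of_nonneg h1 fun _ _ _ => Nat.cast_nonneg _).trans ?_
  have h0 := Finset.sum_union_inter (s₁ := range m) (s₂ := (range m).image (fun i => n - i))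
    (f := fun j => (n.choose j : ℝ))
  have h0' : 0 ≤ ∑ j ∈ range m ∩ (range m).image (fun i => n - i), (n.choose j : ℝ) :=
    Finset.sum_nonneg fun _ _ => Nat.cast_nonneg _
  have h2 : ∑ j ∈ (range m).image (fun i => n - i), (n.choose j : ℝ) =
      ∑ i ∈ range m, (n.choose i : ℝ) := by
    rw [Finset.sum_image]
    · refine Finset.sum_congr rfl fun i hi => ?_
      have := Finset.mem_range.1 hi
      rw [Nat.choose_symm (by omega)]
    · intro i hi j hj h
      have h3 := Finset.mem_range.1 (Finset.mem_coe.1 hi)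
      have h4 := Finset.mem_range.1 (Finset.mem_coe.1 hj)
      simp only at h
      omega
  rw [h2] at h0
  unfold vol
  linarith

lemma pp_le (n d m w : ℕ) (hm : 2 * m ≤ n) (hw : w ≤ n) (η₀ : ℝ)
    (hη : vol n d * (2 * vol n m) ≤ η₀ * 2 ^ n) : |pp n d m w| ≤ η₀ := by
  unfold pp
  have h2 : (0 : ℝ) < 2 ^ n := by positivity
  rw [abs_mul, abs_of_pos (inv_pos.2 h2), inv_mul_le_iff₀ h2]
  have hV : 0 ≤ vol n d := Finset.sum_nonneg fun w _ => Nat.cast_nonneg _
  calc |∑ j ∈ lo n m, be n d j * (kr n j w : ℝ)|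
      ≤ ∑ j ∈ lo n m, vol n d * (n.choose j : ℝ) := by
        refine (Finset.abs_sum_le_sum_abs _ _).trans (Finset.sum_le_sum fun j hj => ?_)
        unfold lo at hj
        rw [Finset.mem_filter, Finset.mem_range] at hj
        rw [abs_mul]
        exact mul_le_mul (be_le n d j (by omega)) (kr_abs_le n j w hw) (abs_nonneg _) hV
    _ = vol n d * ∑ j ∈ lo n m, (n.choose j : ℝ) := by rw [Finset.mul_sum]
    _ ≤ vol n d * (2 * vol n m) := mul_le_mul_of_nonneg_left (lo_sum n m hm) hV
    _ ≤ η₀ * 2 ^ n := hη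
    _ = 2 ^ n * η₀ := mul_comm _ _

/-- the spectrum of the radial function -/
noncomputable def ss (n d m j : ℕ) : ℝ := ∑ w ∈ range (n + 1), ee n d m w * (kr n w j : ℝ)

lemma ss_inv (n d m w : ℕ) (hw : w ≤ n) :
    ee n d m w = (2 ^ n)⁻¹ * ∑ j ∈ range (n + 1), ss n d m j * (kr n j w : ℝ) := by
  have h1 := tr_tr n (ee n d m) w hw
  have h2 : ∀ j, ss n d m j = √2 ^ n * tr n (ee n d m) j := by
    intro j
    unfold ss tr
    rw [← mul_assoc, mul_inv_cancel₀ (s2_pos n).ne', one_mul]
  have h3 : ∑ j ∈ range (n + 1), ss n d m j * (kr n j w : ℝ) =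
      √2 ^ n * ∑ j ∈ range (n + 1), tr n (ee n d m) j * (kr n j w : ℝ) := by
    rw [Finset.mul_sum]
    refine Finset.sum_congr rfl fun j _ => ?_
    rw [h2]
    ring
  have h4 : tr n (tr n (ee n d m)) w =
      (√2 ^ n)⁻¹ * ∑ j ∈ range (n + 1), tr n (ee n d m) j * (kr n j w : ℝ) := rfl
  rw [h3, ← h1, h4, ← s2 n]
  have := (s2_pos n).ne'
  field_simp

lemma ss_eq (n d m j : ℕ) (hd : d ≤ n + 1) (hj : j ≤ n) :
    ss n d m j = -(if j ∈ lo n m then 0 else be n d j) -
      ∑ w ∈ range d, pp n d m w * (kr n w j : ℝ) := by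
  have h1 : ∀ w, ee n d m w * (kr n w j : ℝ) = pp n d m w * (kr n w j : ℝ) -
      (if w < d then (kr n w j : ℝ) + pp n d m w * (kr n w j : ℝ) else 0) := by
    intro w
    unfold ee
    split_ifs <;> ring
  have h2 : ∑ w ∈ range (n + 1), (if w < d then (kr n w j : ℝ) + pp n d m w * (kr n w j : ℝ)
      else 0) = ∑ w ∈ range d, ((kr n w j : ℝ) + pp n d m w * (kr n w j : ℝ)) := by
    rw [← Finset.sum_filter]
    refine Finset.sum_congr ?_ fun _ _ => rfl
    ext w
    simp only [mem_filter, mem_range]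
    omega
  have h3 : ∑ w ∈ range (n + 1), pp n d m w * (kr n w j : ℝ) =
      if j ∈ lo n m then be n d j else 0 := by
    have e1 : ∑ w ∈ range (n + 1), pp n d m w * (kr n w j : ℝ) =
        (2 ^ n)⁻¹ * ∑ i ∈ lo n m, be n d i * ∑ w ∈ range (n + 1),
          (kr n i w : ℝ) * (kr n w j : ℝ) := by
      unfold pp
      have e2 : ∀ w ∈ range (n + 1), (2 ^ n)⁻¹ * (∑ i ∈ lo n m, be n d i * (kr n i w : ℝ)) *
          (kr n w j : ℝ) = ∑ i ∈ lo n m, (2 ^ n)⁻¹ * (be n d i * ((kr n i w : ℝ) *
            (kr n w j : ℝ))) := by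
        intro w _
        rw [mul_assoc, Finset.sum_mul, Finset.mul_sum]
        refine Finset.sum_congr rfl fun i _ => ?_
        ring
      rw [Finset.sum_congr rfl e2, Finset.sum_comm, Finset.mul_sum]
      refine Finset.sum_congr rfl fun i _ => ?_
      rw [Finset.mul_sum, Finset.mul_sum]
    rw [e1]
    have e3 : ∀ i ∈ lo n m, be n d i * ∑ w ∈ range (n + 1), (kr n i w : ℝ) * (kr n w j : ℝ) =
        if i = j then 2 ^ n * be n d j else 0 := by
      intro i _
      rw [KRAf.inv n i j hj]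
      by_cases h : i = j
      · rw [if_pos h, if_pos h, h]
        ring
      · rw [if_neg h, if_neg h, mul_zero]
    rw [Finset.sum_congr rfl e3, Finset.sum_ite_eq']
    split_ifs
    · rw [← mul_assoc, inv_mul_cancel₀ (by positivity), one_mul]
    · rw [mul_zero]
  unfold ss
  simp_rw [h1]
  rw [Finset.sum_sub_distrib, h2, h3, Finset.sum_add_distrib]
  have h4 : ∑ w ∈ range d, (kr n w j : ℝ) = be n d j := rfl
  rw [h4]
  split_ifs <;> ring

/-- **The kernel on the cube.** -/
theorem cube_kernel3 (hc : S7_chr) (n d m : ℕ) (hd : d ≤ n + 1) (hm : 2 * m ≤ n)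
    (η₀ : ℝ) (hη0 : 0 ≤ η₀) (hη1 : η₀ ≤ 1) (hη : vol n d * (2 * vol n m) ≤ η₀ * 2 ^ n)
    (M Λ σ : ℝ) (hΛ : 0 < Λ) (hσ : 0 ≤ σ)
    (hM : ∀ j, m ≤ j → j + m ≤ n → ∑ w ∈ range d, |(kr n w j : ℝ)| ≤ M)
    (h1 : vol n d + 2 ^ n * η₀ ^ 2 ≤ σ ^ 2) (h2 : M + η₀ * vol n d ≤ Λ) :
    ∃ g : (Fin n → Bool) → (Fin n → Bool) → ℝ, KK g (1 + η₀) Λ σ ∧ (∀ x y, g x y = g y x) ∧
      ∀ x y, hammingDist x y < d → g x y = 0 := by
  have hlow : ∀ w ≤ n, -1 ≤ ee n d m w ∧ ee n d m w ≤ η₀ := by
    intro w hw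
    unfold ee
    split_ifs
    · exact ⟨le_rfl, by linarith⟩
    · have h5 := abs_le.1 (pp_le n d m w hm hw η₀ hη)
      constructor <;> linarith [h5.1, h5.2]
  have hM0 : 0 ≤ M := by
    refine le_trans ?_ (hM m le_rfl (by omega))
    exact Finset.sum_nonneg fun _ _ => abs_nonneg _
  have hs : ∀ j ≤ n, |ss n d m j| ≤ Λ := by
    intro j hj
    rw [ss_eq n d m j hd hj]
    have e1 : |∑ w ∈ range d, pp n d m w * (kr n w j : ℝ)| ≤ η₀ * vol n d := by
      unfold vol
      rw [Finset.mul_sum]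
      refine (Finset.abs_sum_le_sum_abs _ _).trans (Finset.sum_le_sum fun w hw => ?_)
      have := Finset.mem_range.1 hw
      rw [abs_mul]
      exact mul_le_mul (pp_le n d m w hm (by omega) η₀ hη) (kr_abs_le n w j hj) (abs_nonneg _) hη0
    have e2 : |if j ∈ lo n m then 0 else be n d j| ≤ M := by
      split_ifs with h
      · simpa using hM0
      · unfold lo at h
        rw [Finset.mem_filter, Finset.mem_range] at h
        push Not at h
        have h3 := h (by omega)
        unfold be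
        exact (Finset.abs_sum_le_sum_abs _ _).trans (hM j h3.1 h3.2)
    have e3 := abs_sub (-(if j ∈ lo n m then 0 else be n d j))
      (∑ w ∈ range d, pp n d m w * (kr n w j : ℝ))
    rw [abs_neg] at e3
    linarith
  have hrow : ∀ a : Fin n → Bool, ∑ c, (1 + ee n d m (hammingDist a c) - 1) ^ 2 ≤ σ ^ 2 := by
    intro a
    have h3 := sum_dist a fun w => (1 + ee n d m w - 1) ^ 2
    rw [h3]
    refine le_trans ?_ h1
    have e1 : ∀ w ∈ range (n + 1), (n.choose w : ℝ) * (1 + ee n d m w - 1) ^ 2 ≤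
        (if w < d then (n.choose w : ℝ) else 0) + (n.choose w : ℝ) * η₀ ^ 2 := by
      intro w hw
      have hw' := Finset.mem_range.1 hw
      have hc0 : (0 : ℝ) ≤ n.choose w := Nat.cast_nonneg _
      rw [add_sub_cancel_left]
      by_cases hwd : w < d
      · rw [if_pos hwd]
        have : ee n d m w = -1 := by
          unfold ee
          rw [if_pos hwd]
        rw [this]
        have : 0 ≤ (n.choose w : ℝ) * η₀ ^ 2 := by positivity
        linarith
      · rw [if_neg hwd, zero_add]
        refine mul_le_mul_of_nonneg_left ?_ hc0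
        have e2 : ee n d m w = pp n d m w := by
          unfold ee
          rw [if_neg hwd]
        rw [e2, ← sq_abs]
        exact pow_le_pow_left₀ (abs_nonneg _) (pp_le n d m w hm (by omega) η₀ hη) 2
    refine (Finset.sum_le_sum e1).trans (le_of_eq ?_)
    rw [Finset.sum_add_distrib, ← Finset.sum_mul]
    congr 1
    · rw [← Finset.sum_filter]
      unfold vol
      refine Finset.sum_congr ?_ fun _ _ => rfl
      ext w
      simp only [mem_filter, mem_range]
      omega
    · congr 1
      have := Nat.sum_range_choose n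
      exact_mod_cast this
  refine ⟨fun x y => 1 + ee n d m (hammingDist x y), ⟨by linarith, hΛ.le, hσ, fun x y => ?_,
    fun x y => ?_, hrow, fun c => ?_, fun h => ?_⟩, fun x y => ?_, fun x y hxy => ?_⟩
  · have := (hlow _ (PK9f.hd_le x y)).1
    linarith
  · have := (hlow _ (PK9f.hd_le x y)).2
    linarith
  · refine le_trans (le_of_eq ?_) (hrow c)
    refine Finset.sum_congr rfl fun a _ => ?_
    rw [hammingDist_comm]
  · have h3 := spec_radial hc (ee n d m) (ss n d m) hΛ (fun j hj => ?_)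
      (fun w hw => ss_inv n d m w hw) h
    · refine le_trans (le_of_eq ?_) h3
      refine Finset.sum_congr rfl fun a _ => ?_
      congr 1
      exact Finset.sum_congr rfl fun c _ => by ring
    · exact sq_le_sq' (by linarith [(abs_le.1 (hs j hj)).1]) (abs_le.1 (hs j hj)).2
  · change 1 + ee n d m (hammingDist x y) = 1 + ee n d m (hammingDist y x)
    rw [hammingDist_comm]
  · change 1 + ee n d m (hammingDist x y) = 0
    unfold ee
    rw [if_pos hxy]
    ring

end Pool.Agent.H2xSR
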