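import Mathlib
import Pool.Agent.H2xSR.Kern3
import Pool.Agent.H2xSR.Param3
import Pool.Agent.Y570.LS.Asym

/-!
H2xSR (helper2, MP_0430e4_lc): the lower bound when `2 ^ (κ n)` words are included and `2 ^ (λ n)`
words are excluded.
-/

set_option autoImplicit false
set_option linter.unusedSectionVars false

open Filter Topology

namespace Pool.Agent.H2xSR

open Pool.Agent.Y570 Pool.Agent.Y570.LS Pool.Agent.TH41.BL Pool.Agent.H2xSX

/-- the feasible solutions: `a` words are included, `b` words are excluded -/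
structure PC3 (a b t n d : ℕ) (y : Finset (Fin n → Bool) → ℝ) : Prop where
  one : y ∅ = 1
  dist : ∀ S : Finset (Fin n → Bool), ∀ u ∈ S, ∀ v ∈ S, u ≠ v → hammingDist u v < d → y S = 0
  psd : ∀ D E : Finset (Fin n → Bool), D.card ≤ a → E.card ≤ b →
    ∀ f : Finset (Fin n → Bool) → ℝ, (∀ S, t < S.card → f S = 0) →
      0 ≤ ∑ S, ∑ T, f S * f T * KP.cond y D E (S ∪ T)

/-- the constants -/
lemma consts {δ κ lam : ℝ} (h0 : 0 < δ) (h1 : δ < 1 / 2)
    (hκ : κ < Real.log 2 - Real.binEntropy δ) (hlam : lam < Real.log 2 - Real.binEntropy δ)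
    (hlam' : lam < Real.binEntropy δ) :
    ∃ D κ₁ κ₂ D' ε ω γ θ lam₁ : ℝ, D = Real.log 2 - Real.binEntropy δ ∧ 0 < D ∧ κ ≤ κ₁ ∧
      lam ≤ κ₁ ∧ 0 ≤ κ₁ ∧ κ₁ < κ₂ ∧ κ₂ + 2 * D' = D ∧ 0 < D' ∧ 0 < ε ∧ ε < 1 / 2 ∧
      Real.binEntropy ε ≤ D' ∧ 0 < ω ∧ ω ≤ D' ∧
      ω ≤ ε * -Real.log (1 - 2 * (δ * (1 - δ))) ∧ 0 < γ ∧ lam ≤ lam₁ ∧ 0 ≤ lam₁ ∧
      0 < θ ∧ θ ≤ ω - γ ∧ θ ≤ Real.binEntropy δ - lam₁ - 2 * γ := by
  have hhd : 0 < Real.binEntropy δ := Real.binEntropy_pos h0 (by linarith)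
  have hD : 0 < Real.log 2 - Real.binEntropy δ := by
    have := Real.binEntropy_lt_log_two.2 (by norm_num; linarith : δ ≠ 2⁻¹)
    linarith
  obtain ⟨D, hDd⟩ : ∃ D : ℝ, D = Real.log 2 - Real.binEntropy δ := ⟨_, rfl⟩
  obtain ⟨κ₁, hκ₁⟩ : ∃ κ₁ : ℝ, κ₁ = max (max κ lam) 0 := ⟨_, rfl⟩
  have a1 : κ ≤ κ₁ := by rw [hκ₁]; exact (le_max_left _ _).trans (le_max_left _ _)
  have a2 : lam ≤ κ₁ := by rw [hκ₁]; exact (le_max_right _ _).trans (le_max_left _ _)
  have a3 : 0 ≤ κ₁ := by rw [hκ₁]; exact le_max_right _ _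
  have a4 : κ₁ < D := by
    rw [hκ₁, hDd]
    exact max_lt (max_lt hκ hlam) hD
  obtain ⟨D', hD'⟩ : ∃ D' : ℝ, D' = (D - κ₁) / 4 := ⟨_, rfl⟩
  have a5 : 0 < D' := by rw [hD']; linarith
  have hent : ∀ᶠ ε : ℝ in 𝓝[>] 0, Real.binEntropy ε < D' ∧ ε ∈ Set.Ioo (0 : ℝ) (1 / 2) := by
    have e1 : Tendsto Real.binEntropy (𝓝 0) (𝓝 0) :=
      Real.binEntropy_continuous.tendsto' 0 0 (by simp)
    have e2 : ∀ᶠ ε : ℝ in 𝓝 0, Real.binEntropy ε < D' := e1.eventually (gt_mem_nhds a5)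
    exact (e2.filter_mono nhdsWithin_le_nhds).and (Ioo_mem_nhdsGT (by norm_num))
  obtain ⟨ε, hε1, hε2, hε3⟩ := hent.exists
  have hpq : 0 < δ * (1 - δ) := mul_pos h0 (by linarith)
  have hpq2 : δ * (1 - δ) ≤ 1 / 4 := by nlinarith [sq_nonneg (δ - 1 / 2)]
  have hlog : 0 < -Real.log (1 - 2 * (δ * (1 - δ))) := by
    have := Real.log_neg (x := 1 - 2 * (δ * (1 - δ))) (by linarith) (by linarith)
    linarith
  obtain ⟨ω, hω⟩ : ∃ ω : ℝ, ω = min (ε * -Real.log (1 - 2 * (δ * (1 - δ)))) D' := ⟨_, rfl⟩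
  have a6 : 0 < ω := by
    rw [hω]
    exact lt_min (mul_pos hε2 hlog) a5
  obtain ⟨lam₁, hlam₁⟩ : ∃ lam₁ : ℝ, lam₁ = max lam 0 := ⟨_, rfl⟩
  have a7 : lam₁ < Real.binEntropy δ := by
    rw [hlam₁]
    exact max_lt hlam' hhd
  obtain ⟨γ, hγ⟩ : ∃ γ : ℝ, γ = min (ω / 2) ((Real.binEntropy δ - lam₁) / 4) := ⟨_, rfl⟩
  have a8 : γ ≤ ω / 2 := by rw [hγ]; exact min_le_left _ _
  have a9 : γ ≤ (Real.binEntropy δ - lam₁) / 4 := by rw [hγ]; exact min_le_right _ _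
  refine ⟨D, κ₁, κ₁ + (D - κ₁) / 2, D', ε, ω, γ,
    min (ω / 2) ((Real.binEntropy δ - lam₁) / 2), lam₁, hDd, by linarith, a1, a2, a3, by linarith,
    ?_, a5, hε2, hε3, hε1.le, a6, ?_, ?_, ?_, ?_, ?_, ?_, ?_, ?_⟩
  · rw [hD']
    ring
  · rw [hω]
    exact min_le_right _ _
  · rw [hω]
    exact min_le_left _ _
  · rw [hγ]
    exact lt_min (by linarith) (by linarith)
  · rw [hlam₁]
    exact le_max_left _ _
  · rw [hlam₁]
    exact le_max_right _ _
  · exact lt_min (by linarith) (by linarith)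
  · refine (min_le_left _ _).trans ?_
    linarith
  · refine (min_le_right _ _).trans ?_
    linarith

/-- **The lower bound.** -/
theorem lower3 (hc : S7_chr) {δ κ lam : ℝ} (h0 : 0 < δ) (h1 : δ < 1 / 2)
    (hκ : κ < Real.log 2 - Real.binEntropy δ) (hlam : lam < Real.log 2 - Real.binEntropy δ)
    (hlam' : lam < Real.binEntropy δ) :
    ∃ γ : ℝ, 0 < γ ∧ ∃ c : ℝ, 0 < c ∧ ∃ n₀ : ℕ, ∀ n ≥ n₀, ∀ a b t : ℕ, 1 ≤ t →
      (a : ℝ) ≤ Real.exp (κ * n) → (b : ℝ) ≤ Real.exp (lam * n) →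
      (t : ℝ) * Real.log n ≤ c * n → ∃ y, PC3 a b t n ⌈δ * n⌉₊ y ∧
        ∑ x, y {x} = 2 ^ n * Real.exp (γ * n / t - n * Real.binEntropy δ) := by
  obtain ⟨D, κ₁, κ₂, D', ε, ω, γ, θ, lam₁, hDd, hD0, hκκ, hlκ, hκ0, hκ12, hκD, hD', hε0, hε1,
    hεD, hω0, hωD, hωε, hγ0, hll, hl0, hθ0, hθ1, hθ2⟩ := consts h0 h1 hκ hlam hlam'
  obtain ⟨hd, hhd⟩ : ∃ hd : ℝ, hd = Real.binEntropy δ := ⟨_, rfl⟩
  obtain ⟨hε, hhε⟩ : ∃ hε : ℝ, hε = Real.binEntropy ε := ⟨_, rfl⟩
  rw [← hhd] at hDd hθ2 ⊢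
  rw [← hhε] at hεD
  obtain ⟨q, hq⟩ : ∃ q : ℝ, q = 1 - 2 * (δ * (1 - δ)) := ⟨_, rfl⟩
  rw [← hq] at hωε
  have hpq : 0 < δ * (1 - δ) := mul_pos h0 (by linarith)
  have hpq2 : δ * (1 - δ) ≤ 1 / 4 := by nlinarith [sq_nonneg (δ - 1 / 2)]
  have hq0 : 0 < q := by rw [hq]; linarith
  have hq1 : q < 1 := by rw [hq]; linarith
  have hl2 : 0 < Real.log 2 := Real.log_pos (by norm_num)
  have hl320 : 0 ≤ Real.log 320 := Real.log_nonneg (by norm_num)
  obtain ⟨A, hAd⟩ : ∃ A : ℝ, A = Real.log 320 + 6 := ⟨_, rfl⟩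
  have hA0 : 0 < A := by linarith
  obtain ⟨c, hcd⟩ : ∃ c : ℝ, c = min 1 (θ / (2 * A)) := ⟨_, rfl⟩
  have hc0 : 0 < c := by
    rw [hcd]
    exact lt_min one_pos (by positivity)
  have hc1 : c ≤ 1 := by rw [hcd]; exact min_le_left _ _
  have hcA : c ≤ θ / (2 * A) := by rw [hcd]; exact min_le_right _ _
  refine ⟨γ, hγ0, c, hc0, ?_⟩
  have hN : ∀ C : ℝ, ∀ᶠ n : ℕ in atTop, C ≤ (n : ℝ) := fun C =>
    tendsto_natCast_atTop_atTop.eventually_ge_atTop C
  have hall := (((hN 3).and (hN (2 / (1 - 2 * ε)))).and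
    ((ev1 1 κ₂ one_pos (by linarith)).and (ev1 2 (κ₂ - κ₁) (by norm_num) (by linarith)))).and
    ((ev1 4 D' (by norm_num) hD').and (ev1 72 (θ / 2) (by norm_num) (by linarith)))
  obtain ⟨n₀, hn₀⟩ := eventually_atTop.1 hall
  refine ⟨n₀, fun n hn a b t ht hac hbc htc => ?_⟩
  obtain ⟨⟨⟨E1, E2⟩, E3, E4⟩, E5, E6⟩ := hn₀ n hn
  have hn0 : (0 : ℝ) < n := by linarith
  -- the integers
  obtain ⟨d, hdd⟩ : ∃ d : ℕ, d = ⌈δ * n⌉₊ := ⟨_, rfl⟩
  obtain ⟨m, hmd⟩ : ∃ m : ℕ, m = ⌈ε * n⌉₊ := ⟨_, rfl⟩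
  have hd1 : 1 ≤ d := by
    rw [hdd]
    exact Nat.one_le_iff_ne_zero.2 (Nat.ceil_pos.2 (by positivity)).ne'
  have hd2 : (d : ℝ) ≤ δ * n + 1 := by
    rw [hdd]
    exact (Nat.ceil_lt_add_one (by positivity)).le
  have hdn : d ≤ n + 1 := by
    have h3 : δ * n ≤ 1 * n := mul_le_mul_of_nonneg_right (by linarith) hn0.le
    have : (d : ℝ) ≤ n + 1 := by linarith
    exact_mod_cast this
  have hm1 : (m : ℝ) ≤ ε * n + 1 := by
    rw [hmd]
    exact (Nat.ceil_lt_add_one (by positivity)).le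
  have hm2 : ε * n ≤ m := by
    rw [hmd]
    exact Nat.le_ceil _
  have E2' : 2 * (ε * n + 1) ≤ n := by
    rw [div_le_iff₀ (by linarith)] at E2
    linarith
  have hmn' : (2 : ℝ) * m ≤ n := by linarith
  have hmn : 2 * m ≤ n := by exact_mod_cast hmn'
  -- the volumes
  obtain ⟨V, hV⟩ : ∃ V : ℝ, V = Real.exp (n * hd) := ⟨_, rfl⟩
  have hV0 : 0 < V := by
    rw [hV]
    exact Real.exp_pos _
  have hwd : ∀ w < d, (w : ℝ) ≤ n * δ := by
    intro w hw
    rw [hdd, Nat.lt_ceil] at hw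
    linarith
  have hvol : vol n d ≤ V := by
    rw [hV, hhd]
    exact vol_le h0 h1.le n d hdn hwd
  have hvol0 : 0 ≤ vol n d := Finset.sum_nonneg fun w _ => Nat.cast_nonneg _
  have hvolm : vol n m ≤ Real.exp (n * hε) := by
    rw [hhε]
    refine vol_le hε0 hε1.le n m (by omega) fun w hw => ?_
    rw [hmd, Nat.lt_ceil] at hw
    linarith
  have hvolm0 : 0 ≤ vol n m := Finset.sum_nonneg fun w _ => Nat.cast_nonneg _
  have h2n : (2 : ℝ) ^ n = Real.exp (n * Real.log 2) := by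
    rw [mul_comm, Real.exp_mul, Real.exp_log (by norm_num), Real.rpow_natCast]
  obtain ⟨η₀, hη₀⟩ : ∃ η₀ : ℝ, η₀ = 2 * Real.exp (-(n * (D - hε))) := ⟨_, rfl⟩
  have hη00 : 0 ≤ η₀ := by rw [hη₀]; positivity
  have hη : vol n d * (2 * vol n m) ≤ η₀ * 2 ^ n := by
    calc vol n d * (2 * vol n m) ≤ V * (2 * Real.exp (n * hε)) :=
          mul_le_mul hvol (mul_le_mul_of_nonneg_left hvolm (by norm_num)) (by positivity) hV0.le
      _ = η₀ * 2 ^ n := by
          have : Real.exp (-(n * (D - hε))) * Real.exp (n * Real.log 2) =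
              Real.exp (n * hd) * Real.exp (n * hε) := by
            rw [← Real.exp_add, ← Real.exp_add, hDd]
            congr 1
            ring
          rw [hη₀, h2n, hV, mul_assoc, this]
          ring
  -- the number of the rounds
  have hlog1 : 1 ≤ Real.log n := by
    rw [Real.le_log_iff_exp_le hn0]
    linarith [Real.exp_one_lt_d9]
  have ht1 : (1 : ℝ) ≤ t := by exact_mod_cast ht
  have htn : (t : ℝ) ≤ n := by
    have b1 : (t : ℝ) * 1 ≤ t * Real.log n := mul_le_mul_of_nonneg_left hlog1 (by linarith)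
    have b2 : c * n ≤ 1 * n := mul_le_mul_of_nonneg_right hc1 hn0.le
    linarith
  obtain ⟨r, hr⟩ : ∃ r : ℕ, r = max (a + b) t := ⟨_, rfl⟩
  have hsr : a + b ≤ r := by rw [hr]; exact le_max_left _ _
  have htr : t ≤ r := by rw [hr]; exact le_max_right _ _
  have hrκ : (r : ℝ) ≤ Real.exp (n * κ₂) := by
    rw [hr, Nat.cast_max]
    refine max_le ?_ ?_
    · push_cast
      have b1 : (a : ℝ) ≤ Real.exp (n * κ₁) := by
        refine hac.trans (Real.exp_le_exp.2 ?_)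
        rw [mul_comm]
        exact mul_le_mul_of_nonneg_left hκκ hn0.le
      have b2 : (b : ℝ) ≤ Real.exp (n * κ₁) := by
        refine hbc.trans (Real.exp_le_exp.2 ?_)
        rw [mul_comm]
        exact mul_le_mul_of_nonneg_left hlκ hn0.le
      calc (a : ℝ) + b ≤ 2 * Real.exp (n * κ₁) := by linarith
        _ ≤ Real.exp (n * (κ₂ - κ₁)) * Real.exp (n * κ₁) := by
            refine mul_le_mul_of_nonneg_right ?_ (Real.exp_pos _).le
            linarith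
        _ = Real.exp (n * κ₂) := by
            rw [← Real.exp_add]
            congr 1
            ring
    · linarith
  have hr2 : (r : ℝ) * η₀ ≤ 1 / 2 := by
    calc (r : ℝ) * η₀ ≤ Real.exp (n * κ₂) * (2 * Real.exp (-(n * (D - hε)))) := by
          rw [hη₀]
          exact mul_le_mul_of_nonneg_right hrκ (by positivity)
      _ = 2 * Real.exp (n * κ₂ + -(n * (D - hε))) := by
          rw [Real.exp_add]
          ring
      _ ≤ 2 * Real.exp (-(n * D')) := by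
          refine mul_le_mul_of_nonneg_left (Real.exp_le_exp.2 ?_) (by norm_num)
          have b1 : n * κ₂ + -(n * (D - hε)) = -(n * D') - n * (D' - hε) := by
            rw [← hκD]
            ring
          rw [b1]
          have b2 : 0 ≤ n * (D' - hε) := mul_nonneg hn0.le (by linarith)
          linarith
      _ ≤ 1 / 2 := by
          have b3 : Real.exp (n * D') * Real.exp (-(n * D')) = 1 := by
            rw [← Real.exp_add, add_neg_cancel, Real.exp_zero]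
          have b4 : 4 ≤ Real.exp (n * D') := by linarith
          have b5 := mul_le_mul_of_nonneg_right b4 (Real.exp_pos (-(n * D'))).le
          rw [b3] at b5
          linarith
  have hr1 : (1 : ℝ) ≤ r := by
    have : 1 ≤ r := by omega
    exact_mod_cast this
  have hη01 : η₀ ≤ 1 := by
    have := le_mul_of_one_le_left hη00 hr1
    linarith
  have hKr : (1 + η₀) ^ r ≤ 2 := by
    have := one_add_pow_le hη00 r hr2
    linarith
  -- the spectrum
  obtain ⟨M, hM⟩ : ∃ M : ℝ, M = V * Real.exp (-(n * ω)) := ⟨_, rfl⟩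
  have hmid : ∀ j, m ≤ j → j + m ≤ n → ∑ w ∈ Finset.range d, |(kr n w j : ℝ)| ≤ M := by
    intro j hj1 hj2
    refine (mid_le h0 h1.le n m j d hj1 hj2 hdn hwd).trans ?_
    rw [← hhd, ← hV, ← hq, hM]
    refine mul_le_mul_of_nonneg_left ?_ hV0.le
    have b1 : q ^ m = Real.exp (Real.log q * m) := by
      rw [Real.exp_mul, Real.exp_log hq0, Real.rpow_natCast]
    rw [b1, Real.exp_le_exp]
    have b2 : Real.log q < 0 := Real.log_neg hq0 hq1
    have b3 : -Real.log q * (ε * n) ≤ -Real.log q * m :=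
      mul_le_mul_of_nonneg_left hm2 (by linarith)
    have b4 : n * ω ≤ n * (ε * -Real.log q) := mul_le_mul_of_nonneg_left hωε hn0.le
    have b5 : n * (ε * -Real.log q) = -Real.log q * (ε * n) := by ring
    linarith
  obtain ⟨Λ, hΛ⟩ : ∃ Λ : ℝ, Λ = 3 * V * Real.exp (-(n * ω)) := ⟨_, rfl⟩
  have hΛ0 : 0 < Λ := by
    rw [hΛ]
    positivity
  have hηω : η₀ ≤ 2 * Real.exp (-(n * ω)) := by
    rw [hη₀]
    refine mul_le_mul_of_nonneg_left (Real.exp_le_exp.2 ?_) (by norm_num)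
    have : n * ω ≤ n * (D - hε) := mul_le_mul_of_nonneg_left (by linarith) hn0.le
    linarith
  have hspec : M + η₀ * vol n d ≤ Λ := by
    rw [hM, hΛ]
    have b1 : η₀ * vol n d ≤ 2 * Real.exp (-(n * ω)) * V :=
      mul_le_mul hηω hvol hvol0 (by positivity)
    linarith
  have hκV : (0 : ℝ) ≤ 5 * V := by positivity
  have hrow : vol n d + 2 ^ n * η₀ ^ 2 ≤ √(5 * V) ^ 2 := by
    rw [Real.sq_sqrt hκV]
    have b1 : (2 : ℝ) ^ n * η₀ ^ 2 ≤ 4 * V := by
      rw [hη₀, h2n, mul_pow, ← Real.exp_nat_mul, hV]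
      have b2 : Real.exp (n * Real.log 2) * (2 ^ 2 * Real.exp ((2 : ℕ) * -(n * (D - hε)))) =
          4 * Real.exp (n * Real.log 2 + (2 : ℕ) * -(n * (D - hε))) := by
        rw [Real.exp_add]
        ring
      rw [b2]
      refine mul_le_mul_of_nonneg_left (Real.exp_le_exp.2 ?_) (by norm_num)
      push_cast
      have b3 : n * Real.log 2 + 2 * -(n * (D - hε)) = n * hd - n * (D - 2 * hε) := by
        rw [hDd]
        ring
      rw [b3]
      have b4 : 0 ≤ n * (D - 2 * hε) := mul_nonneg hn0.le (by linarith)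
      linarith
    linarith
  obtain ⟨g, hg1, hg2, hg3⟩ := cube_kernel3 hc n d m hdn hmn η₀ hη00 hη01 hη M Λ
    √(5 * V) hΛ0 (Real.sqrt_nonneg _) hmid hrow hspec
  -- the smallness
  have ht0 : (0 : ℝ) < t := by exact_mod_cast ht
  obtain ⟨E, hE⟩ : ∃ E : ℝ, E = Real.exp (γ * n / t) := ⟨_, rfl⟩
  have hE1 : 1 ≤ E := by
    rw [hE]
    exact Real.one_le_exp (by positivity)
  have hEt : E ^ t = Real.exp (γ * n) := by
    rw [hE, ← Real.exp_nat_mul]
    congr 1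
    field_simp
  have hω1 : Real.exp (-(n * ω)) ≤ 1 := by
    rw [Real.exp_le_one_iff]
    have : 0 ≤ n * ω := by positivity
    linarith
  have hΛκ : Λ ≤ 5 * V := by
    rw [hΛ]
    have b1 := mul_le_mul_of_nonneg_left hω1 hV0.le
    linarith
  -- the function of `t`
  obtain ⟨Ψ, hΨ⟩ : ∃ Ψ : ℝ, Ψ = 320 ^ t * (2 * (t : ℝ) + 1) ^ (3 * t) := ⟨_, rfl⟩
  have hΨ0 : 0 < Ψ := by rw [hΨ]; positivity
  have hΨ1 : Ψ ≤ Real.exp (n * (θ / 2)) := by
    have b1 : Ψ = Real.exp (t * (Real.log 320 + 3 * Real.log (2 * t + 1))) := by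
      rw [hΨ, mul_add, Real.exp_add, mul_comm (t : ℝ) (Real.log 320), Real.exp_mul,
        Real.exp_log (by norm_num), Real.rpow_natCast]
      congr 1
      rw [show (t : ℝ) * (3 * Real.log (2 * t + 1)) = Real.log (2 * t + 1) * ((3 * t : ℕ) : ℝ) by
        push_cast; ring, Real.exp_mul, Real.exp_log (by positivity), Real.rpow_natCast]
    rw [b1, Real.exp_le_exp]
    have b2 : Real.log (2 * t + 1) ≤ 2 * Real.log n := by
      have : 2 * Real.log n = Real.log ((n : ℝ) ^ 2) := by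
        rw [Real.log_pow]
        push_cast
        ring
      rw [this]
      refine Real.log_le_log (by positivity) ?_
      have e1 : (3 : ℝ) * n ≤ n * n := mul_le_mul_of_nonneg_right E1 hn0.le
      rw [pow_two]
      linarith
    have b3 : Real.log 320 ≤ Real.log 320 * Real.log n := le_mul_of_one_le_right hl320 hlog1
    calc (t : ℝ) * (Real.log 320 + 3 * Real.log (2 * t + 1))
        ≤ t * (Real.log 320 * Real.log n + 3 * (2 * Real.log n)) := by gcongr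
      _ = A * (t * Real.log n) := by
          rw [hAd]
          ring
      _ ≤ A * (c * n) := mul_le_mul_of_nonneg_left htc hA0.le
      _ ≤ A * (θ / (2 * A) * n) := by gcongr
      _ = n * (θ / 2) := by
          field_simp
  have hx1 : Λ / V * E ^ t ≤ 3 * Real.exp (-(n * θ)) := by
    rw [hEt, hΛ]
    have b1 : 3 * V * Real.exp (-(n * ω)) / V * Real.exp (γ * n) =
        3 * Real.exp (-(n * ω) + γ * n) := by
      rw [Real.exp_add]
      field_simp
    rw [b1]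
    refine mul_le_mul_of_nonneg_left (Real.exp_le_exp.2 ?_) (by norm_num)
    have b2 : n * θ ≤ n * (ω - γ) := mul_le_mul_of_nonneg_left hθ1 hn0.le
    linarith
  have hx2 : b * (E / V) * E ^ t ≤ Real.exp (-(n * θ)) := by
    have b0 : (b : ℝ) ≤ Real.exp (n * lam₁) := by
      refine hbc.trans (Real.exp_le_exp.2 ?_)
      rw [mul_comm]
      exact mul_le_mul_of_nonneg_left hll hn0.le
    calc b * (E / V) * E ^ t ≤ Real.exp (n * lam₁) * (E / V) * E ^ t := by gcongr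
      _ ≤ Real.exp (-(n * θ)) := by
        rw [hEt, hE, hV, div_eq_mul_inv, ← Real.exp_neg, ← Real.exp_add, ← Real.exp_add,
          ← Real.exp_add, Real.exp_le_exp]
        have b1 : γ * n / t ≤ γ * n := by
          refine div_le_self (by positivity) ?_
          exact_mod_cast ht
        have b2 : n * θ ≤ n * (hd - lam₁ - 2 * γ) := mul_le_mul_of_nonneg_left hθ2 hn0.le
        linarith
  have h2t1 : (1 : ℝ) ≤ 2 * t + 1 := by linarith
  have htt : (t : ℝ) ≤ (2 * t + 1) ^ t :=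
    (by linarith : (t : ℝ) ≤ 2 * t + 1).trans (le_self_pow₀ h2t1 (by omega))
  have htt1 : (t : ℝ) + 1 ≤ (2 * t + 1) ^ t :=
    (by linarith : (t : ℝ) + 1 ≤ 2 * t + 1).trans (le_self_pow₀ h2t1 (by omega))
  have htt2 : (t : ℝ) ^ t ≤ (2 * t + 1) ^ t := pow_le_pow_left₀ (by linarith) (by linarith) t
  have htt3 : (2 * (t : ℝ)) ^ (2 * t) ≤ (2 * t + 1) ^ (2 * t) :=
    pow_le_pow_left₀ (by linarith) (by linarith) _
  have hexp0 : Real.exp (n * (θ / 2)) * Real.exp (-(n * θ)) = Real.exp (-(n * (θ / 2))) := by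
    rw [← Real.exp_add]
    congr 1
    ring
  have hE7 : 72 * Real.exp (-(n * (θ / 2))) ≤ 1 := by
    have b1 : Real.exp (n * (θ / 2)) * Real.exp (-(n * (θ / 2))) = 1 := by
      rw [← Real.exp_add, add_neg_cancel, Real.exp_zero]
    have b2 : 72 ≤ Real.exp (n * (θ / 2)) := by linarith
    have b3 := mul_le_mul_of_nonneg_right b2 (Real.exp_pos (-(n * (θ / 2)))).le
    linarith
  have hEVt : (b : ℝ) * (E / V) ≤ b * (E / V) * E ^ t :=
    le_mul_of_one_le_right (by positivity) (one_le_pow₀ hE1)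
  have hA : ((2 * t + 1) ^ t * (t : ℝ) ^ t * (5 ^ t * (Λ / V * E ^ t))) * t * (2 ^ t * 4 ^ t) ≤
      1 / 2 := by
    have b1 : (2 * (t : ℝ) + 1) ^ t * (t : ℝ) ^ t * 5 ^ t * t * (2 ^ t * 4 ^ t) ≤ Ψ := by
      rw [hΨ]
      calc (2 * (t : ℝ) + 1) ^ t * (t : ℝ) ^ t * 5 ^ t * t * (2 ^ t * 4 ^ t)
          ≤ (2 * (t : ℝ) + 1) ^ t * (2 * (t : ℝ) + 1) ^ t * 5 ^ t * (2 * (t : ℝ) + 1) ^ t *
            (2 ^ t * 4 ^ t) := by gcongr
        _ = 40 ^ t * ((2 * (t : ℝ) + 1) ^ (3 * t)) := by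
            rw [show (40 : ℝ) = 5 * (2 * 4) by norm_num, mul_pow, mul_pow,
              show 3 * t = t + t + t by ring, pow_add, pow_add]
            ring
        _ ≤ 320 ^ t * (2 * (t : ℝ) + 1) ^ (3 * t) := by
            refine mul_le_mul_of_nonneg_right (pow_le_pow_left₀ (by norm_num) (by norm_num) t)
              (by positivity)
    have b2 : (2 * (t : ℝ) + 1) ^ t * (t : ℝ) ^ t * 5 ^ t * t * (2 ^ t * 4 ^ t) ≤
        Real.exp (n * (θ / 2)) := b1.trans hΨ1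
    have b3 : 0 ≤ Λ / V * E ^ t := by positivity
    calc ((2 * (t : ℝ) + 1) ^ t * (t : ℝ) ^ t * (5 ^ t * (Λ / V * E ^ t))) * t * (2 ^ t * 4 ^ t)
        = ((2 * (t : ℝ) + 1) ^ t * (t : ℝ) ^ t * 5 ^ t * t * (2 ^ t * 4 ^ t)) *
          (Λ / V * E ^ t) := by ring
      _ ≤ Real.exp (n * (θ / 2)) * (3 * Real.exp (-(n * θ))) :=
          mul_le_mul b2 hx1 b3 (Real.exp_pos _).le
      _ = 3 * (Real.exp (n * (θ / 2)) * Real.exp (-(n * θ))) := by ring
      _ ≤ 1 / 2 := by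
          rw [hexp0]
          linarith [Real.exp_pos (-(n * (θ / 2)))]
  have hθθ : Real.exp (-(n * θ)) ≤ Real.exp (-(n * (θ / 2))) := by
    rw [Real.exp_le_exp]
    have : 0 ≤ n * (θ / 2) := by positivity
    linarith
  have hs3 : b * (3 * (2 * (E / V))) ≤ 1 / 2 := by
    calc (b : ℝ) * (3 * (2 * (E / V))) = 6 * (b * (E / V)) := by ring
      _ ≤ 6 * Real.exp (-(n * θ)) := by
          have b1 := hEVt.trans hx2
          linarith
      _ ≤ 1 / 2 := by linarith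
  have hB : 3 * (2 ^ t * (t + 1) * ((4 * 5 * E) ^ t * (2 ^ t * 4 ^ t))) *
      ((2 * t) ^ (2 * t) * (2 * (b * (3 * (2 * (E / V)))))) ≤ 1 := by
    have b1 : ((t : ℝ) + 1) * 320 ^ t * (2 * t) ^ (2 * t) ≤ Ψ := by
      rw [hΨ]
      calc ((t : ℝ) + 1) * 320 ^ t * (2 * t) ^ (2 * t) ≤
          (2 * (t : ℝ) + 1) ^ t * 320 ^ t * (2 * t + 1) ^ (2 * t) := by gcongr
        _ = 320 ^ t * (2 * (t : ℝ) + 1) ^ (3 * t) := by
            rw [show 3 * t = t + 2 * t by ring, pow_add]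
            ring
    have b2 : (2 : ℝ) ^ t * ((4 * 5) ^ t * (2 ^ t * 4 ^ t)) = 320 ^ t := by
      rw [← mul_pow, ← mul_pow, ← mul_pow]
      norm_num
    calc 3 * (2 ^ t * ((t : ℝ) + 1) * ((4 * 5 * E) ^ t * (2 ^ t * 4 ^ t))) *
        ((2 * t) ^ (2 * t) * (2 * (b * (3 * (2 * (E / V))))))
        = 36 * (((t : ℝ) + 1) * ((2 : ℝ) ^ t * ((4 * 5) ^ t * (2 ^ t * 4 ^ t))) *
          (2 * t) ^ (2 * t)) * (b * (E / V) * E ^ t) := by
          rw [mul_pow (4 * 5) E t]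
          ring
      _ ≤ 36 * Real.exp (n * (θ / 2)) * Real.exp (-(n * θ)) := by
          rw [b2]
          have b3 := b1.trans hΨ1
          gcongr
      _ = 36 * (Real.exp (n * (θ / 2)) * Real.exp (-(n * θ))) := by
          ring
      _ ≤ 1 := by
          rw [hexp0]
          linarith [Real.exp_pos (-(n * (θ / 2)))]
  have hSml := sml3_of (K := 1 + η₀) (b := b) (by linarith) hKr hsr htr ht hV0 hE1
    (by norm_num : (1 : ℝ) ≤ 5) hΛ0.le hΛκ hs3 hA hB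
  have hg0 : ∀ x, g x x = 0 := by
    intro x
    refine hg3 x x ?_
    rw [hammingDist_self]
    omega
  refine ⟨yy (E / V) g, ⟨?_, ?_, ?_⟩, ?_⟩
  · unfold yy pr
    simp
  · intro S u hu v hv huv hd'
    rw [← hdd] at hd'
    unfold yy pr
    rw [Finset.prod_eq_zero (i := (u, v)), mul_zero]
    · exact Finset.mem_offDiag.2 ⟨hu, hv, huv⟩
    · rw [hg3 u v hd', Real.sqrt_zero]
  · intro D E' hD hE' f hf
    exact psd_cond3 hg1 hg2 hg0 hSml D E' (by omega) hE' f hf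
  · have hy : ∀ x : Fin n → Bool, yy (E / V) g {x} = E / V := by
      intro x
      unfold yy pr
      simp
    simp_rw [hy]
    rw [Finset.sum_const, Finset.card_univ, Fintype.card_fun, Fintype.card_bool, Fintype.card_fin,
      nsmul_eq_mul, Nat.cast_pow, Nat.cast_ofNat, Real.exp_sub, ← hE, ← hV]

end Pool.Agent.H2xSR
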