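import Mathlib
import Pool.Agent.H2xSR.Asym4
import Pool.Agent.Y570.LS.Fin

/-!
H2xSR (helper2, MP_0430e4_lc): the hierarchy is exact as soon as the number of the included words is
the size of the largest code.
-/

set_option autoImplicit false
set_option linter.unusedSectionVars false

open Filter Topology

namespace Pool.Agent.H2xSR

open Finset Pool.Agent.Y570 Pool.Agent.Y570.LS Pool.Agent.TH41.BL Pool.Agent.H2xSX

variable {a b t n d M : ℕ} {y : Finset (Fin n → Bool) → ℝ}

/-- the quadratic form after the inclusion of `D` -/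
lemma PC3.form (hy : PC3 a b t n d y) (ht : 1 ≤ t) (D : Finset (Fin n → Bool)) (hD : D.card ≤ a)
    (c : Option (Fin n → Bool) → ℝ) :
    0 ≤ ∑ i, ∑ j, c i * c j * y (D ∪ (i.toFinset ∪ j.toFinset)) := by
  have hF : ∀ o : Option (Fin n → Bool), o.toFinset.card ≤ t := by
    intro o
    cases o
    · exact Nat.zero_le _
    · simpa using ht
  have h1 := psd_ind (KP.cond y D ∅) (hy.psd D ∅ hD (by simp))
    (fun o : Option (Fin n → Bool) => o.toFinset) hF c
  simpa only [KP.cond_empty] using h1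

lemma PC3.nonneg (hy : PC3 a b t n d y) (ht : 1 ≤ t) (D : Finset (Fin n → Bool))
    (hD : D.card ≤ a) : 0 ≤ y D := by
  have h := hy.form ht D hD (fun o => if o = none then 1 else 0)
  rw [Fintype.sum_option] at h
  simp only [Fintype.sum_option] at h
  simpa using h

lemma PC3.nonneg' (hy : PC3 a b t n d y) (ht : 1 ≤ t) (D : Finset (Fin n → Bool))
    (hD : D.card ≤ a) (x : Fin n → Bool) : 0 ≤ y (insert x D) := by
  have h := hy.form ht D hD (fun o => if o = some x then 1 else 0)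
  have e1 : ∑ i, ∑ j, (if i = some x then (1 : ℝ) else 0) * (if j = some x then 1 else 0) *
      y (D ∪ (i.toFinset ∪ j.toFinset)) = y (insert x D) := by
    rw [Finset.sum_eq_single (some x)]
    · rw [Finset.sum_eq_single (some x)]
      · rw [if_pos rfl, one_mul, one_mul, Finset.union_self]
        congr 1
        ext z
        simp [or_comm]
      · intro j _ hj
        rw [if_neg hj]
        ring
      · intro h
        exact absurd (Finset.mem_univ _) h
    · intro i _ hi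
      refine Finset.sum_eq_zero fun j _ => ?_
      rw [if_neg hi]
      ring
    · intro h
      exact absurd (Finset.mem_univ _) h
  rw [e1] at h
  exact h

/-- the expected number of the words -/
noncomputable def TT (y : Finset (Fin n → Bool) → ℝ) (D : Finset (Fin n → Bool)) : ℝ :=
  ∑ x, y (insert x D)

lemma PC3.cauchy (hy : PC3 a b t n d y) (ht : 1 ≤ t) (D : Finset (Fin n → Bool))
    (hD : D.card ≤ a) : TT y D ^ 2 ≤ y D * ∑ x, TT y (insert x D) := by
  have h : ∀ c : ℝ, 0 ≤ y D * (c * c) + 2 * TT y D * c + ∑ x, TT y (insert x D) := by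
    intro c
    have h1 := hy.form ht D hD (fun o => o.elim c fun _ => 1)
    refine h1.trans (le_of_eq ?_)
    simp only [Fintype.sum_option, Option.elim_none, Option.elim_some, Option.toFinset_none,
      Option.toFinset_some, Finset.union_empty, Finset.empty_union]
    have e1 : ∀ x : Fin n → Bool, D ∪ {x} = insert x D := by
      intro x
      ext z
      simp [or_comm]
    have e2 : ∀ x z : Fin n → Bool, D ∪ ({x} ∪ {z}) = insert z (insert x D) := by
      intro x z
      ext w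
      simp only [Finset.mem_union, Finset.mem_singleton, Finset.mem_insert]
      tauto
    simp only [e1, e2]
    rw [Finset.sum_add_distrib]
    unfold TT
    simp only [mul_one, one_mul]
    rw [← Finset.mul_sum]
    ring
  have h2 := discrim_le_zero h
  unfold discrim at h2
  nlinarith

/-- the induction -/
lemma PC3.bound (hy : PC3 a b t n d y) (ht : 1 ≤ t) (hM : M ≤ a + 1)
    (hcode : ∀ C : Finset (Fin n → Bool), (∀ x ∈ C, ∀ z ∈ C, x ≠ z → d ≤ hammingDist x z) →
      C.card ≤ M) (j : ℕ) :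
    ∀ D : Finset (Fin n → Bool), D.card + j = M → TT y D ≤ M * y D := by
  have hsplit : ∀ (D : Finset (Fin n → Bool)) (φ : (Fin n → Bool) → ℝ),
      ∑ x, φ x = ∑ x ∈ D, φ x + ∑ x ∈ Dᶜ, φ x := by
    intro D φ
    exact (Finset.sum_add_sum_compl D φ).symm
  have hin : ∀ (D : Finset (Fin n → Bool)) (ψ : Finset (Fin n → Bool) → ℝ),
      ∑ x ∈ D, ψ (insert x D) = D.card * ψ D := by
    intro D ψ
    rw [Finset.sum_congr rfl fun x hx => by rw [Finset.insert_eq_of_mem hx], Finset.sum_const,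
      nsmul_eq_mul]
  induction j with
  | zero =>
    intro D hD
    have h1 : ∀ x ∈ Dᶜ, y (insert x D) = 0 := by
      intro x hx
      rw [Finset.mem_compl] at hx
      by_contra h2
      have h3 : (insert x D).card ≤ M := by
        refine hcode _ fun u hu v hv huv => ?_
        by_contra h4
        exact h2 (hy.dist _ u hu v hv huv (by omega))
      rw [Finset.card_insert_of_notMem hx] at h3
      omega
    unfold TT
    rw [hsplit D, hin D y, Finset.sum_eq_zero h1, add_zero]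
    have : D.card = M := by omega
    rw [this]
  | succ j ih =>
    intro D hD
    have hDa : D.card ≤ a := by omega
    have hY := hy.nonneg ht D hDa
    have hC := hy.cauchy ht D hDa
    obtain ⟨k, hk⟩ : ∃ k : ℝ, k = D.card := ⟨_, rfl⟩
    obtain ⟨T, hT⟩ : ∃ T : ℝ, T = TT y D := ⟨_, rfl⟩
    have hkM : k + 1 ≤ M := by
      rw [hk]
      exact_mod_cast (by omega : D.card + 1 ≤ M)
    have h1 : T = k * y D + ∑ x ∈ Dᶜ, y (insert x D) := by
      rw [hT, hk]
      unfold TT
      rw [hsplit D, hin D y]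
    have h2 : 0 ≤ ∑ x ∈ Dᶜ, y (insert x D) :=
      Finset.sum_nonneg fun x _ => hy.nonneg' ht D hDa x
    have h3 : ∑ x, TT y (insert x D) ≤ k * T + M * ∑ x ∈ Dᶜ, y (insert x D) := by
      rw [hsplit D, hin D (TT y), ← hk, ← hT, Finset.mul_sum]
      refine add_le_add le_rfl (Finset.sum_le_sum fun x hx => ?_)
      rw [Finset.mem_compl] at hx
      refine ih _ ?_
      rw [Finset.card_insert_of_notMem hx]
      omega
    rw [← hT] at hC ⊢
    have h4 : T ^ 2 ≤ y D * (k * T + M * (T - k * y D)) := by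
      refine hC.trans (mul_le_mul_of_nonneg_left (h3.trans (le_of_eq ?_)) hY)
      rw [h1]
      ring
    have h5 : k * y D ≤ T := by linarith
    by_contra h6
    rw [not_le] at h6
    have h7 : (T - k * y D) * (T - M * y D) ≤ 0 := by nlinarith
    have h8 : k * y D ≤ M * y D := mul_le_mul_of_nonneg_right (by linarith) hY
    have h9 : 0 < (T - k * y D) * (T - M * y D) :=
      mul_pos (by linarith) (by linarith)
    linarith

/-- **The hierarchy is exact.** -/
theorem PC3.exact (hy : PC3 a b t n d y) (ht : 1 ≤ t) (hM : M ≤ a + 1)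
    (hcode : ∀ C : Finset (Fin n → Bool), (∀ x ∈ C, ∀ z ∈ C, x ≠ z → d ≤ hammingDist x z) →
      C.card ≤ M) : ∑ x, y {x} ≤ M := by
  have h := hy.bound ht hM hcode M ∅ (by simp)
  unfold TT at h
  rw [hy.one, mul_one] at h
  exact h

lemma PC3.of_pc (h : LS.PC (a + b) t n d y) : PC3 a b t n d y :=
  ⟨h.one, h.dist, fun D E hD hE f hf => h.psd D E (by omega) f hf⟩

lemma PC3.to_pc (h : PC3 a b t n d y) : LS.PC 0 t n d y :=
  ⟨h.one, h.dist, fun D E hDE f hf => h.psd D E (by omega) (by omega) f hf⟩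

/-- the optimum -/
noncomputable def SO3 (a b t n d : ℕ) : ℝ :=
  sSup {v : ℝ | ∃ y, PC3 a b t n d y ∧ v = ∑ x, y {x}}

lemma bdd3 (ht : 1 ≤ t) : BddAbove {v : ℝ | ∃ y, PC3 a b t n d y ∧ v = ∑ x, y {x}} := by
  refine (bdd (s := 0) (n := n) (d := d) ht).mono ?_
  rintro v ⟨y, hy, rfl⟩
  exact ⟨y, hy.to_pc, rfl⟩

lemma nonempty3 (a b t n d : ℕ) : {v : ℝ | ∃ y, PC3 a b t n d y ∧ v = ∑ x, y {x}}.Nonempty :=
  ⟨_, _, PC3.of_pc (pc_code ∅ (by simp)), rfl⟩

lemma code_le3 (ht : 1 ≤ t) (C : Finset (Fin n → Bool))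
    (hC : ∀ x ∈ C, ∀ y ∈ C, x ≠ y → d ≤ hammingDist x y) : (C.card : ℝ) ≤ SO3 a b t n d := by
  refine le_csSup (bdd3 ht) ⟨_, PC3.of_pc (pc_code C hC), ?_⟩
  simp only [Finset.singleton_subset_iff]
  rw [Finset.sum_ite_mem, Finset.univ_inter, Finset.sum_const, nsmul_eq_mul, mul_one]

theorem SO3_le (ht : 1 ≤ t) (hM : M ≤ a + 1)
    (hcode : ∀ C : Finset (Fin n → Bool), (∀ x ∈ C, ∀ z ∈ C, x ≠ z → d ≤ hammingDist x z) →
      C.card ≤ M) : SO3 a b t n d ≤ M := by
  refine csSup_le (nonempty3 _ _ _ _ _) ?_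
  rintro v ⟨y, hy, rfl⟩
  exact hy.exact ht hM hcode

/-- the lower bound for the optimum -/
theorem SO3_lower (hc : S7_chr) {δ κ lam : ℝ} (h0 : 0 < δ) (h1 : δ < 1 / 2)
    (hκ : κ < 1 - Real.binEntropy δ / Real.log 2)
    (hlam : lam < 1 - Real.binEntropy δ / Real.log 2)
    (hlam' : lam < Real.binEntropy δ / Real.log 2) :
    ∃ γ : ℝ, 0 < γ ∧ ∃ c : ℝ, 0 < c ∧ ∃ n₀ : ℕ, ∀ n ≥ n₀, ∀ a b t : ℕ, 1 ≤ t →
      (a : ℝ) ≤ 2 ^ (κ * n) → (b : ℝ) ≤ 2 ^ (lam * n) → (t : ℝ) ≤ c * n / Real.log n →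
        (2 : ℝ) ^ ((1 - Real.binEntropy δ / Real.log 2 + γ / t) * n) ≤ SO3 a b t n ⌈δ * n⌉₊ := by
  have hl2 : 0 < Real.log 2 := Real.log_pos (by norm_num)
  have e1 : κ * Real.log 2 < Real.log 2 - Real.binEntropy δ := by
    have := mul_lt_mul_of_pos_right hκ hl2
    rwa [sub_mul, one_mul, div_mul_cancel₀ _ hl2.ne'] at this
  have e2 : lam * Real.log 2 < Real.log 2 - Real.binEntropy δ := by
    have := mul_lt_mul_of_pos_right hlam hl2
    rwa [sub_mul, one_mul, div_mul_cancel₀ _ hl2.ne'] at this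
  have e3 : lam * Real.log 2 < Real.binEntropy δ := by
    have := mul_lt_mul_of_pos_right hlam' hl2
    rwa [div_mul_cancel₀ _ hl2.ne'] at this
  obtain ⟨γ, hγ, c, hc0, n₀, h⟩ := lower3 hc h0 h1 e1 e2 e3
  refine ⟨γ / Real.log 2, div_pos hγ hl2, c, hc0, max n₀ 3,
    fun n hn a b t ht ha hb htc => ?_⟩
  have hn0' : n₀ ≤ n := le_trans (le_max_left _ _) hn
  have hn3 : 3 ≤ n := le_trans (le_max_right _ _) hn
  have hn3' : (3 : ℝ) ≤ n := by exact_mod_cast hn3
  have hlog : 0 < Real.log n := Real.log_pos (by linarith)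
  have hn0 : (0 : ℝ) ≤ n := Nat.cast_nonneg _
  have ha' : (a : ℝ) ≤ Real.exp (κ * Real.log 2 * n) := by
    refine ha.trans (le_of_eq ?_)
    rw [Real.rpow_def_of_pos (by norm_num : (0 : ℝ) < 2)]
    congr 1
    ring
  have hb' : (b : ℝ) ≤ Real.exp (lam * Real.log 2 * n) := by
    refine hb.trans (le_of_eq ?_)
    rw [Real.rpow_def_of_pos (by norm_num : (0 : ℝ) < 2)]
    congr 1
    ring
  have ht' : (t : ℝ) * Real.log n ≤ c * n := by
    rwa [le_div_iff₀ hlog] at htc
  obtain ⟨y, hy1, hy2⟩ := h n hn0' a b t ht ha' hb' ht'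
  have h3 : ∑ x, y {x} ≤ SO3 a b t n ⌈δ * n⌉₊ := le_csSup (bdd3 ht) ⟨y, hy1, rfl⟩
  refine le_trans (le_of_eq ?_) h3
  rw [hy2]
  have h2n : (2 : ℝ) ^ n = Real.exp (n * Real.log 2) := by
    rw [mul_comm, Real.exp_mul, Real.exp_log (by norm_num), Real.rpow_natCast]
  rw [h2n, ← Real.exp_add, Real.rpow_def_of_pos (by norm_num : (0 : ℝ) < 2)]
  congr 1
  have ht0 : (0 : ℝ) < t := by exact_mod_cast ht
  field_simp
  ring

end Pool.Agent.H2xSR
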