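import Pool.Agent.H2xSR.Exact
import Pool.Agent.H2x430.Final

/-!
H2xSR (helper2, MP_0430e4_lc): the Gilbert-Varshamov bound is tight iff the hierarchy shows this when
slightly more than `2 ^ ((1 - H δ) n)` words are included.
-/

set_option autoImplicit false

open Filter Topology

namespace Pool.Agent.H2xSR

open Pool.Agent.Results.MP_0430e4_lc.ConstantWeightCriterion (H two_rpow
  IsCode A exists_A A_pos card_le_A R rateA bdd_le bdd_ge)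
open Pool.Agent.H2x430

theorem tight {δ : ℝ} (h0 : 0 < δ) (h1 : δ < 1 / 2) :
    R δ = 1 - H δ ↔ ∀ ε : ℝ, 0 < ε → ∀ᶠ n : ℕ in atTop,
      SO3 ⌈(2 : ℝ) ^ ((1 - H δ + ε) * n)⌉₊ 0 1 n ⌈δ * n⌉₊ ≤ (2 : ℝ) ^ ((1 - H δ + ε) * n) := by
  have hb1 := bdd_le (f := fun n : ℕ => Real.logb 2 (A n ⌈δ * n⌉₊) / n) (rateA δ)
  have hb2 := bdd_ge (f := fun n : ℕ => Real.logb 2 (A n ⌈δ * n⌉₊) / n) (rateA δ)
  constructor
  · intro hR ε hε
    have h2 : ∀ᶠ n : ℕ in atTop, Real.logb 2 (A n ⌈δ * n⌉₊) / n < 1 - H δ + ε := by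
      refine eventually_lt_of_limsup_lt ?_ hb1
      have : limsup (fun n : ℕ => Real.logb 2 (A n ⌈δ * n⌉₊) / n) atTop = R δ := rfl
      rw [this, hR]
      linarith
    filter_upwards [h2, eventually_ge_atTop 1] with n hn hn1
    have hn0 : (0 : ℝ) < n := by exact_mod_cast hn1
    have hA0 : (0 : ℝ) < A n ⌈δ * n⌉₊ := by exact_mod_cast A_pos n ⌈δ * n⌉₊
    rw [div_lt_iff₀ hn0, Real.logb_lt_iff_lt_rpow (by norm_num) hA0] at hn
    refine le_trans (SO3_le (M := A n ⌈δ * n⌉₊) le_rfl ?_ fun C hC => card_le_A hC) hn.le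
    have h3 : (A n ⌈δ * n⌉₊ : ℝ) ≤ ⌈(2 : ℝ) ^ ((1 - H δ + ε) * n)⌉₊ := hn.le.trans (Nat.le_ceil _)
    have h4 : A n ⌈δ * n⌉₊ ≤ ⌈(2 : ℝ) ^ ((1 - H δ + ε) * n)⌉₊ := by exact_mod_cast h3
    omega
  · intro h
    have hge : 1 - H δ ≤ R δ :=
      le_limsup_of_frequently_le (gv_rate h0 h1).frequently hb1
    refine le_antisymm (le_of_forall_pos_le_add fun ε hε => ?_) hge
    refine limsup_le_of_le hb2.isCoboundedUnder_le ?_
    filter_upwards [h ε hε, eventually_ge_atTop 1] with n hn hn1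
    have hn0 : (0 : ℝ) < n := by exact_mod_cast hn1
    have hA0 : (0 : ℝ) < A n ⌈δ * n⌉₊ := by exact_mod_cast A_pos n ⌈δ * n⌉₊
    obtain ⟨C, hC, hcard⟩ := exists_A n ⌈δ * n⌉₊
    have h3 := code_le3 (a := ⌈(2 : ℝ) ^ ((1 - H δ + ε) * n)⌉₊) (b := 0) (t := 1) le_rfl C hC
    rw [hcard] at h3
    rw [div_le_iff₀ hn0, Real.logb_le_iff_le_rpow (by norm_num) hA0]
    exact h3.trans hn

end Pool.Agent.H2xSR
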